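import Pool.Agent.MP_ed4d7b_nt.k2.Spec

/-! An integer whose power is close to a partition number is close to the root curve. -/

set_option autoImplicit false

noncomputable section

namespace Pool.Agent.MP_ed4d7b_nt.K2

open Filter
open scoped Real

namespace AppL

lemma close {u y E : ℝ} {k : ℕ} (hk : 1 ≤ k) (hu : 0 ≤ u) (hy : 0 < y)
    (h : |u ^ k - y ^ k| ≤ E) : |y - u| * y ^ k ≤ y * E := by
  have hp : 0 < y ^ k := pow_pos hy k
  have := root_close (δ := E / y ^ k) hk hu hy (by rwa [mul_div_cancel₀ _ hp.ne'])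
  calc _ ≤ y * (E / y ^ k) * y ^ k := mul_le_mul_of_nonneg_right this hp.le
    _ = _ := by field_simp

lemma sq_case {u r t E G : ℝ} (hu : 0 ≤ u) (hr : 0 < r) (hG : r ^ 2 = G) (h4 : 4 ≤ G)
    (ht : t ^ 2 ≤ 4 * G) (h : |u ^ 2 - G - t| ≤ E) :
    |r + t / (2 * r) - u| * G ≤ 2 * r * (E + 1) := by
  obtain ⟨w, hw⟩ : ∃ w, w = t / (2 * r) := ⟨_, rfl⟩
  have e : t = 2 * r * w := by rw [hw]; field_simp
  have w1 : w ^ 2 ≤ 1 := by
    have : G * w ^ 2 ≤ G * 1 := by rw [e, ← hG] at ht; rw [← hG]; linarith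
    exact le_of_mul_le_mul_left this (by linarith)
  have r2 : 2 ≤ r := by nlinarith
  have w2 : -1 ≤ w := by nlinarith
  rw [← hw]
  have hy : 0 < r + w := by linarith
  have hE : 0 ≤ E := (abs_nonneg _).trans h
  have a : |u ^ 2 - (r + w) ^ 2| ≤ E + 1 := by
    rw [abs_le] at h ⊢
    constructor <;> nlinarith [sq_nonneg w]
  have b := close (k := 2) (by norm_num) hu hy a
  have c : |r + w - u| * (r + w) ≤ E + 1 :=
    le_of_mul_le_mul_left (a := r + w) (by linarith) hy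
  have d : |r + w - u| * r ≤ 2 * (E + 1) := by
    have := mul_le_mul_of_nonneg_left (show r ≤ 2 * (r + w) by linarith) (abs_nonneg (r + w - u))
    linarith
  have := mul_le_mul_of_nonneg_left d hr.le
  rw [← hG]; linarith

end AppL

open AppL in
theorem app (h : HR2S) : AppS := by
  obtain ⟨c, c₁, K, μ₀, hc, hK, h⟩ := h
  intro k ε hk hε
  obtain ⟨η, hη⟩ : ∃ η : ℝ, η = min ε 0.005 := ⟨_, rfl⟩
  have η0 : 0 < η := hη ▸ lt_min hε (by norm_num)
  have η1 : η ≤ ε := hη ▸ min_le_left _ _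
  have η2 : η ≤ 0.005 := hη ▸ min_le_right _ _
  refine ⟨c, c₁, η / 2, hc, by linarith, fun d => ?_⟩
  obtain ⟨A, hA⟩ : ∃ A : ℝ, A = 1 + |c₁| + K := ⟨_, rfl⟩
  obtain ⟨D, hD⟩ : ∃ D : ℝ, D = |d| * A + |c₁| + K + 1 := ⟨_, rfl⟩
  have A1 : 1 ≤ A := by rw [hA]; linarith [abs_nonneg c₁]
  filter_upwards [eventually_ge_atTop μ₀, eventually_ge_atTop 2, eventually_ge_atTop c,
    eventually_ge_atTop (c₁ ^ 2 / c), ev_pow_le (4 * D / c) 2 (b := η / 2) (by linarith),
    ev_pow_le (8 / c) 2 one_pos] with μ h0 h2 h3 h4 h5 h6 n hn m hm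
  have hμ : 0 < μ := by linarith
  have k2 : (2 : ℝ) ≤ k := by exact_mod_cast hk
  have k0 : (0 : ℝ) < k := by linarith
  have k1 : 1 / (k : ℝ) ≤ 1 / 2 := one_div_le_one_div_of_le two_pos k2
  obtain ⟨r, r0, r1, r2⟩ := fk_real hc (k := k) (by omega) (μ := μ) (by linarith)
  have e0 := h n μ h0 hn
  obtain ⟨t, ht⟩ : ∃ t : ℝ, t = (-1) ^ n * c₁ * (μ - 2) / μ ^ 3 * Real.exp (μ / 2) := ⟨_, rfl⟩
  change |(P n : ℝ) - g c μ - _| ≤ _ at e0
  rw [← ht] at e0
  have g1 : g c μ ≤ Real.exp μ := by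
    refine mul_le_of_le_one_left (Real.exp_pos μ).le ?_
    rw [div_le_one (by positivity)]
    have : μ * (μ - 1) ≤ μ ^ 3 := by nlinarith [mul_pos hμ hμ]
    nlinarith
  have g2 : c / (2 * μ ^ 2) * Real.exp μ ≤ g c μ := by
    refine mul_le_mul_of_nonneg_right ?_ (Real.exp_pos μ).le
    rw [div_le_div_iff₀ (by positivity) (by positivity)]
    have : μ ^ 3 ≤ (μ - 1) * (2 * μ ^ 2) := by nlinarith [mul_pos hμ hμ]
    nlinarith
  have g3 : 4 ≤ g c μ := by
    refine le_trans ?_ g2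
    rw [one_mul] at h6
    calc (4 : ℝ) = c / (2 * μ ^ 2) * (8 / c * μ ^ 2) := by
          field_simp
          norm_num
      _ ≤ _ := by gcongr
  have t1 : |t| ≤ |c₁| / μ ^ 2 * Real.exp (μ / 2) := by
    rw [ht, abs_mul, abs_div, abs_mul, abs_mul, abs_pow, abs_neg, abs_one, one_pow, one_mul,
      abs_of_nonneg (show 0 ≤ μ - 2 by linarith), abs_of_pos (pow_pos hμ 3),
      abs_of_pos (Real.exp_pos _)]
    refine mul_le_mul_of_nonneg_right ?_ (Real.exp_pos _).le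
    rw [div_le_div_iff₀ (by positivity) (by positivity)]
    have := mul_nonneg (abs_nonneg c₁) (sq_nonneg μ)
    nlinarith
  have t2 : |t| ≤ |c₁| * Real.exp (μ / 2) :=
    t1.trans (mul_le_mul_of_nonneg_right (div_le_self (abs_nonneg _) (by nlinarith))
      (Real.exp_pos _).le)
  obtain ⟨θ, hθ⟩ : ∃ θ : ℝ, θ = 1 - 1 / (k : ℝ) - η := ⟨_, rfl⟩
  have θ1 : 0.495 ≤ θ := by rw [hθ]; linarith
  have θ2 : θ ≤ 1 := by rw [hθ]; linarith [one_div_pos.2 k0]
  have hP : (1 : ℝ) ≤ P n := by exact_mod_cast Fintype.card_pos (α := Nat.Partition n)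
  have e1 : Real.exp (0.495 * μ) ≤ Real.exp (θ * μ) := by gcongr
  have e2 : (P n : ℝ) ≤ A * Real.exp μ := by
    have a1 : Real.exp (0.495 * μ) ≤ Real.exp μ := Real.exp_le_exp.mpr (by linarith)
    have a2 : Real.exp (μ / 2) ≤ Real.exp μ := Real.exp_le_exp.mpr (by linarith)
    have a3 := mul_le_mul_of_nonneg_left a1 hK.le
    have a4 := mul_le_mul_of_nonneg_left a2 (abs_nonneg c₁)
    rw [hA]
    linarith [(abs_le.mp e0).2, le_abs_self t]
  have e3 : (P n : ℝ) ^ (1 - 1 / (k : ℝ) - ε) ≤ A * Real.exp (θ * μ) := by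
    calc _ ≤ (P n : ℝ) ^ θ := Real.rpow_le_rpow_of_exponent_le hP (by rw [hθ]; linarith)
      _ ≤ (A * Real.exp μ) ^ θ := by gcongr
      _ = A ^ θ * Real.exp (θ * μ) := by
          rw [Real.mul_rpow (by positivity) (by positivity), ← Real.exp_mul, mul_comm μ]
      _ ≤ _ := by
          gcongr
          exact Real.rpow_le_self_of_one_le A1 θ2
  obtain ⟨u, hu⟩ : ∃ u : ℝ, u = ((|m| : ℤ) : ℝ) := ⟨_, rfl⟩
  have u1 : u = |(m : ℝ)| := hu.trans Int.cast_abs
  have u0 : 0 ≤ u := u1 ▸ abs_nonneg _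
  have e4 : |u ^ k - g c μ - t| ≤ (|d| * A + K) * Real.exp (θ * μ) := by
    have a1 := abs_abs_sub_abs_le_abs_sub ((m : ℝ) ^ k) (P n)
    rw [abs_pow, Nat.abs_cast, abs_sub_comm ((m : ℝ) ^ k), ← u1] at a1
    have a2 : d * (P n : ℝ) ^ (1 - 1 / (k : ℝ) - ε) ≤ |d| * (A * Real.exp (θ * μ)) :=
      mul_le_mul (le_abs_self _) e3 (by positivity) (abs_nonneg _)
    have a4 := mul_le_mul_of_nonneg_left e1 hK.le
    rw [abs_le] at a1 e0 ⊢
    constructor <;> linarith [a1.1, a1.2, e0.1, e0.2]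
  have e5 : 1 ≤ Real.exp (θ * μ) := Real.one_le_exp (by positivity)
  have main : ∃ w : ℝ, wk c ((-1) ^ n * c₁) k μ = w ∧
      |r + w - u| * g c μ ≤ 2 * r * (D * Real.exp (θ * μ)) := by
    by_cases hk2 : k = 2
    · subst hk2
      refine ⟨t / (2 * r), ?_, (sq_case u0 r0 r2 g3 ?_ e4).trans ?_⟩
      · rw [wk, if_pos rfl, r1, ht]
        push_cast
        rfl
      · have a1 : t ^ 2 ≤ (|c₁| / μ ^ 2 * Real.exp (μ / 2)) ^ 2 := by
          rw [← sq_abs t]; exact pow_le_pow_left₀ (abs_nonneg _) t1 2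
        have a2 : Real.exp (μ / 2) ^ 2 = Real.exp μ := by
          rw [sq, ← Real.exp_add]; congr 1; ring
        rw [mul_pow, a2, div_pow, sq_abs] at a1
        have a3 : c₁ ^ 2 / (μ ^ 2) ^ 2 ≤ 4 * (c / (2 * μ ^ 2)) := by
          rw [div_le_iff₀ hc] at h4
          rw [div_le_iff₀ (by positivity),
            show 4 * (c / (2 * μ ^ 2)) * (μ ^ 2) ^ 2 = 2 * μ * (μ * c) by field_simp; ring]
          nlinarith [mul_pos hμ hc]
        have a4 := mul_le_mul_of_nonneg_right a3 (Real.exp_pos μ).le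
        linarith
      · refine mul_le_mul_of_nonneg_left ?_ (by linarith)
        have := mul_nonneg (abs_nonneg c₁) (Real.exp_pos (θ * μ)).le
        rw [hD]; linarith
    · refine ⟨0, by rw [wk, if_neg hk2]; rfl, ?_⟩
      have k3 : (3 : ℝ) ≤ k := by exact_mod_cast (by omega : 3 ≤ k)
      have k4 : 1 / (k : ℝ) ≤ 1 / 3 := one_div_le_one_div_of_le three_pos k3
      have a1 : Real.exp (μ / 2) ≤ Real.exp (θ * μ) := by
        refine Real.exp_le_exp.mpr ?_
        have : 1 / 2 ≤ θ := by rw [hθ]; linarith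
        nlinarith
      have a2 := mul_le_mul_of_nonneg_left a1 (abs_nonneg c₁)
      have a3 : |u ^ k - r ^ k| ≤ D * Real.exp (θ * μ) := by
        rw [r2, hD]
        rw [abs_le] at e4 t2 ⊢
        constructor <;> linarith [e4.1, e4.2, t2.1, t2.2]
      have a4 := close (by omega) u0 r0 a3
      have a5 := mul_nonneg r0.le ((abs_nonneg _).trans a3)
      rw [add_zero, ← r2]; linarith
  obtain ⟨w, w1, w2⟩ := main
  have D0 : 0 ≤ D := by rw [hD]; positivity
  have r3 : r ≤ Real.exp (1 / (k : ℝ) * μ) := by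
    refine le_of_pow_le_pow_left₀ (n := k) (by omega) (Real.exp_pos _).le ?_
    rw [r2, ← Real.exp_nat_mul, show (k : ℝ) * (1 / k * μ) = μ by field_simp]
    exact g1
  rw [r1, w1, ← Complex.ofReal_intCast, ← hu, ← Complex.ofReal_add, ← Complex.ofReal_sub,
    Complex.norm_real, Real.norm_eq_abs]
  refine le_of_mul_le_mul_right (w2.trans ?_) (show 0 < g c μ by linarith)
  calc 2 * r * (D * Real.exp (θ * μ))
      ≤ 2 * Real.exp (1 / (k : ℝ) * μ) * (D * Real.exp (θ * μ)) := by gcongr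
    _ = c / (2 * μ ^ 2) * (4 * D / c * μ ^ 2) *
          (Real.exp (1 / (k : ℝ) * μ) * Real.exp (θ * μ)) := by
        field_simp
        ring
    _ ≤ c / (2 * μ ^ 2) * Real.exp (η / 2 * μ) *
          (Real.exp (1 / (k : ℝ) * μ) * Real.exp (θ * μ)) := by gcongr
    _ = Real.exp (-(η / 2 * μ)) * (c / (2 * μ ^ 2) * Real.exp μ) := by
        rw [mul_assoc, ← Real.exp_add, ← Real.exp_add, mul_left_comm, ← Real.exp_add, hθ]
        congr 2
        ring
    _ ≤ _ := by gcongr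

end Pool.Agent.MP_ed4d7b_nt.K2

end
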