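import Pool.Agent.MP_ed4d7b_nt.k2.Spec

/-! The auxiliary pair of integer valued polynomials. -/

set_option autoImplicit false

noncomputable section

namespace Pool.Agent.MP_ed4d7b_nt.K2

open Finset Filter Metric Polynomial
open scoped Real Nat

namespace ConsL

theorem binom (k : ℕ) : ∃ P : ℂ[X], P.natDegree ≤ k ∧ ∀ n : ℕ, P.eval (n : ℂ) = n.choose k := by
  refine ⟨C ((k ! : ℂ)⁻¹) * descPochhammer ℂ k,
    (natDegree_C_mul_le _ _).trans (descPochhammer_natDegree ℂ k).le, fun n => ?_⟩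
  have h : (k ! : ℂ) ≠ 0 := Nat.cast_ne_zero.2 k.factorial_ne_zero
  rw [eval_mul, eval_C, descPochhammer_eval_eq_descFactorial, Nat.descFactorial_eq_factorial_mul_choose,
    Nat.cast_mul, inv_mul_cancel_left₀ h]

theorem newton (r : ℕ → ℤ) (a : ℕ) :
    ∃ A : ℂ[X], IV A ∧ A.natDegree ≤ a ∧ ∀ t : ℕ, t ≤ a → A.eval (t : ℂ) = r t := by
  induction a with
  | zero =>
    refine ⟨C (r 0 : ℂ), fun n => ⟨r 0, eval_C⟩, (natDegree_C _).le, fun t ht => ?_⟩
    rw [Nat.le_zero.1 ht, eval_C]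
  | succ a ih =>
    obtain ⟨A, h1, h2, h3⟩ := ih
    obtain ⟨P, p1, p2⟩ := binom (a + 1)
    obtain ⟨z, hz⟩ := h1 (a + 1)
    refine ⟨A + C ((r (a + 1) - z : ℤ) : ℂ) * P, fun n => ?_,
      natDegree_add_le_of_degree_le (h2.trans a.le_succ) ((natDegree_C_mul_le _ _).trans p1),
      fun t ht => ?_⟩
    · obtain ⟨y, hy⟩ := h1 n
      refine ⟨y + (r (a + 1) - z) * n.choose (a + 1), ?_⟩
      rw [eval_add, eval_mul, eval_C, hy, p2]
      push_cast
      ring
    · rw [eval_add, eval_mul, eval_C, p2]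
      rcases ht.eq_or_lt with rfl | h
      · rw [hz, Nat.choose_self]
        push_cast
        ring
      · rw [h3 t (Nat.lt_succ_iff.1 h), Nat.choose_eq_zero_of_lt h]
        simp

theorem lead {A : ℂ[X]} (h : IV A) (h0 : A ≠ 0) : 1 ≤ (A.natDegree ! : ℝ) * ‖A.leadingCoeff‖ := by
  choose r hr using h
  have e := congrFun A.fwdDiff_iter_degree_eq_factorial 0
  rw [fwdDiff_iter_eq_sum_shift] at e
  have e2 : ((∑ k ∈ range (A.natDegree + 1),
      (-1 : ℤ) ^ (A.natDegree - k) * A.natDegree.choose k * r k : ℤ) : ℂ) =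
      A.leadingCoeff * A.natDegree ! := by
    rw [Int.cast_sum]
    refine Eq.trans (Finset.sum_congr rfl fun k _ => ?_) (e.trans (by simp))
    rw [zero_add, nsmul_eq_mul, mul_one, hr, zsmul_eq_mul, Int.cast_mul]
  have ne : A.leadingCoeff * (A.natDegree ! : ℂ) ≠ 0 :=
    mul_ne_zero (leadingCoeff_ne_zero.2 h0) (Nat.cast_ne_zero.2 (Nat.factorial_ne_zero _))
  rw [← e2] at ne
  have h1 := Int.one_le_abs (Int.cast_ne_zero.1 ne)
  have h2 := congrArg norm e2
  rw [Complex.norm_intCast, norm_mul, Complex.norm_natCast] at h2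
  rw [mul_comm, ← h2]
  exact_mod_cast h1

end ConsL

theorem cons : ConsS := by
  intro a b Q T F hQ hc
  have Q0 : (0 : ℝ) < Q := by exact_mod_cast hQ
  let S : (Fin b → Fin (T + 1)) → ℕ → ℝ := fun c t => (∑ j, ((c j : ℕ) : ℝ) * (t : ℝ) ^ (j : ℕ)) * F t
  have hf : ∀ x : ℝ, ⌊Q * Int.fract x⌋₊ < Q := fun x =>
    (Nat.floor_lt (mul_nonneg Q0.le (Int.fract_nonneg x))).2
      (mul_lt_of_lt_one_right Q0 (Int.fract_lt_one x))
  obtain ⟨c, c', ne, he⟩ := Fintype.exists_ne_map_eq_of_card_lt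
    (fun (c : Fin b → Fin (T + 1)) (t : Fin (a + 1)) =>
      (⟨⌊Q * Int.fract (S c t)⌋₊, hf _⟩ : Fin Q)) (by simpa using hc)
  obtain ⟨A, a1, a2, a3⟩ := ConsL.newton (fun t => ⌊S c' t⌋ - ⌊S c t⌋) a
  let B₀ : ℤ[X] := ∑ j : Fin b, monomial j (((c j : ℕ) : ℤ) - ((c' j : ℕ) : ℤ))
  have B0 : B₀ ≠ 0 := fun h => ne (funext fun j => by
    have h1 := congrArg (fun p => p.coeff j) h
    simp only [B₀, finsetSum_coeff, coeff_monomial, Fin.val_inj, Finset.sum_ite_eq',
      Finset.mem_univ, if_true, coeff_zero] at h1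
    exact Fin.ext (by omega))
  have ev : ∀ z : ℂ, (B₀.map (Int.castRingHom ℂ)).eval z =
      ∑ j : Fin b, (((c j : ℕ) : ℂ) - ((c' j : ℕ) : ℂ)) * z ^ (j : ℕ) := fun z => by
    simp [B₀, Polynomial.map_sum, eval_finsetSum, sub_mul]
  refine ⟨A, B₀.map (Int.castRingHom ℂ), a1, fun n => ⟨B₀.eval n, eval_natCast_map _ _ n⟩, a2,
    natDegree_map_le.trans (natDegree_sum_le_of_forall_le _ _ fun j _ =>
      (natDegree_monomial_le _).trans j.2.le), ?_, fun R z hR hz => ?_, ConsL.lead a1,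
    fun t ht => ?_⟩
  · rw [leadingCoeff_map_of_injective (Int.castRingHom ℂ).injective_int, eq_intCast,
      Complex.norm_intCast]
    exact_mod_cast Int.one_le_abs (leadingCoeff_ne_zero.2 B0)
  · rw [ev]
    refine (norm_sum_le _ _).trans ((Finset.sum_le_card_nsmul _ _ (T * R ^ b) fun j _ => ?_).trans
      (by simp [mul_assoc]))
    rw [norm_mul, norm_pow]
    refine mul_le_mul ?_ ((pow_le_pow_left₀ (norm_nonneg _) hz _).trans
      (pow_le_pow_right₀ hR j.2.le)) (by positivity) (by positivity)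
    have h1 : ((c j : ℕ) : ℝ) ≤ T := by exact_mod_cast Nat.lt_succ_iff.1 (c j).2
    have h2 : ((c' j : ℕ) : ℝ) ≤ T := by exact_mod_cast Nat.lt_succ_iff.1 (c' j).2
    have h3 : (0 : ℝ) ≤ (c j : ℕ) := Nat.cast_nonneg _
    have h4 : (0 : ℝ) ≤ (c' j : ℕ) := Nat.cast_nonneg _
    rw [← Complex.ofReal_natCast, ← Complex.ofReal_natCast, ← Complex.ofReal_sub,
      Complex.norm_real, Real.norm_eq_abs, abs_le]
    constructor <;> linarith
  · have e : A.eval (t : ℂ) + (B₀.map (Int.castRingHom ℂ)).eval (t : ℂ) * (F t : ℂ) =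
        ((Int.fract (S c t) - Int.fract (S c' t) : ℝ) : ℂ) := by
      rw [a3 t ht, ev]
      simp only [Int.fract, S, sub_mul, Finset.sum_sub_distrib]
      push_cast
      ring
    have h1 : ⌊Q * Int.fract (S c t)⌋₊ = ⌊Q * Int.fract (S c' t)⌋₊ :=
      congrArg Fin.val (congrFun he ⟨t, Nat.lt_succ_of_le ht⟩)
    have l1 := Nat.floor_le (mul_nonneg Q0.le (Int.fract_nonneg (S c t)))
    have l2 := Nat.floor_le (mul_nonneg Q0.le (Int.fract_nonneg (S c' t)))
    have u1 := Nat.lt_floor_add_one (Q * Int.fract (S c t))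
    have u2 := Nat.lt_floor_add_one (Q * Int.fract (S c' t))
    rw [h1] at l1 u1
    rw [e, Complex.norm_real, Real.norm_eq_abs, le_div_iff₀ Q0, ← abs_of_pos Q0, ← abs_mul, abs_le]
    constructor <;> linarith

end Pool.Agent.MP_ed4d7b_nt.K2

end
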