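import Pool.Agent.MP_ed4d7b_nt.k2.Spec

/-! Row El1: elimination of second order. -/

set_option autoImplicit false

noncomputable section

namespace Pool.Agent.MP_ed4d7b_nt.K2

open Metric Polynomial

namespace El1L

variable {r U : ℝ} {ρ p q τ : ℂ[X]} {y v : ℂ → ℂ}

theorem step (h : Ode r U ρ p q τ y v) {s η : ℝ} (hs : s ≤ r) (A B E : ℂ[X])
    (hb : ∀ z ∈ ball (0 : ℂ) s, ‖A.eval z + B.eval z * y z + E.eval z * v z‖ ≤ η) :
    ∀ z ∈ ball (0 : ℂ) (s - 1), ‖(ρ * derivative A).eval z +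
      (ρ * derivative B + p * B + τ ^ 2 * E).eval z * y z +
      (ρ * derivative E + τ * B + q * E).eval z * v z‖ ≤ U * η := by
  have hd : ∀ z ∈ ball (0 : ℂ) s, ∃ g : ℂ,
      HasDerivAt (fun z => A.eval z + B.eval z * y z + E.eval z * v z) g z ∧
      (ρ * derivative A).eval z + (ρ * derivative B + p * B + τ ^ 2 * E).eval z * y z +
        (ρ * derivative E + τ * B + q * E).eval z * v z = ρ.eval z * g := by
    intro z hz
    obtain ⟨y', v', h1, h2, h3, h4⟩ := h.eq z (ball_subset_ball hs hz)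
    refine ⟨_, ((A.hasDerivAt z).add ((B.hasDerivAt z).mul h1)).add ((E.hasDerivAt z).mul h2), ?_⟩
    simp only [eval_add, eval_mul, eval_pow]
    linear_combination -(B.eval z) * h3 - E.eval z * h4
  intro z hz
  have hz' := ball_subset_ball (sub_le_self s zero_le_one) hz
  obtain ⟨g, h1, h2⟩ := hd z hz'
  have h3 := cauchy (fun w hw => (hd w hw).choose_spec.1.differentiableAt.differentiableWithinAt)
    hb hz
  rw [h1.deriv] at h3
  rw [h2, norm_mul]
  exact mul_le_mul (h.bd z (ball_subset_ball hs hz')).1 h3 (norm_nonneg _)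
    (zero_le_one.trans h.one)

theorem stepP (h : Ode r U ρ p q τ y v) {s η : ℝ} (hs : s ≤ r) (A : ℂ[X])
    (hb : ∀ z ∈ ball (0 : ℂ) s, ‖A.eval z‖ ≤ η) :
    ∀ z ∈ ball (0 : ℂ) (s - 1), ‖(ρ * derivative A).eval z‖ ≤ U * η := by
  simpa using step h hs A 0 0 (by simpa using hb)

theorem deg (hρ : ρ.natDegree ≤ 2) {A : ℂ[X]} {n : ℕ} (hA : A.natDegree ≤ n) :
    (ρ * derivative A).natDegree ≤ n + 1 := by
  rcases Nat.eq_zero_or_pos A.natDegree with h | h
  · rw [derivative_of_natDegree_zero h]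
    simp
  · have h1 := natDegree_derivative_le A
    exact natDegree_mul_le.trans (by omega)

theorem dmul {A B : ℂ[X]} {a b : ℕ} (hA : A.natDegree ≤ a) (hB : B.natDegree ≤ b) {n : ℕ}
    (h : a + b ≤ n) : (A * B).natDegree ≤ n := natDegree_mul_le.trans (by omega)

theorem dadd {A B : ℂ[X]} {n : ℕ} (hA : A.natDegree ≤ n) (hB : B.natDegree ≤ n) :
    (A + B).natDegree ≤ n := (natDegree_add_le A B).trans (max_le hA hB)

theorem dsub {A B : ℂ[X]} {n : ℕ} (hA : A.natDegree ≤ n) (hB : B.natDegree ≤ n) :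
    (A - B).natDegree ≤ n := (natDegree_sub_le A B).trans (max_le hA hB)

theorem lead {R η : ℝ} (hR : 0 < R) (Q : ℂ[X]) (h : ∀ z ∈ sphere (0 : ℂ) R, ‖Q.eval z‖ ≤ η) :
    ‖Q.leadingCoeff‖ * R ^ Q.natDegree ≤ η := by
  have h0 : (R : ℂ) ≠ 0 := Complex.ofReal_ne_zero.2 hR.ne'
  have h1 := lead_le (c := 0) (Q.comp (C (R : ℂ) * X)) fun z hz => by
    rw [eval_comp]
    refine h _ ?_
    rw [mem_sphere_zero_iff_norm] at hz ⊢
    simp [hz, hR.le]
  rw [leadingCoeff_comp (by rw [natDegree_C_mul_X _ h0]; exact one_ne_zero),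
    leadingCoeff_C_mul_X, norm_mul, norm_pow, Complex.norm_real, Real.norm_of_nonneg hR.le] at h1
  exact h1

theorem nmul {a b : ℂ} {x w : ℝ} (ha : ‖a‖ ≤ x) (hb : ‖b‖ ≤ w) : ‖a * b‖ ≤ x * w := by
  rw [norm_mul]
  exact mul_le_mul ha hb (norm_nonneg _) ((norm_nonneg _).trans ha)

end El1L

open El1L in
theorem el1 : El1S := by
  intro r U ρ p q τ y v h A B β η hr hB hΦ
  have U1 := h.one
  have z0 : (0 : ℂ) ∈ ball (0 : ℂ) r := mem_ball_self (by linarith)
  have β0 : 0 ≤ β := (norm_nonneg _).trans (hB 0 z0)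
  have η0 : 0 ≤ η := (norm_nonneg _).trans (hΦ 0 z0)
  by_cases hA : A = 0
  · simp only [hA, leadingCoeff_zero, norm_zero, zero_mul]
    positivity
  by_cases hB0 : B = 0
  · simp only [hB0, leadingCoeff_zero, norm_zero, zero_pow two_ne_zero, mul_zero, zero_mul]
    positivity
  have hτ : τ ≠ 0 := fun e => by simpa [e] using h.dτ
  have r1 : r - 1 ≤ r := by linarith
  have f1 := step h le_rfl A B 0 (by simpa using hΦ)
  simp only [derivative_zero, mul_zero, add_zero, zero_add] at f1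
  have f2 := step h r1 _ _ _ f1
  have b1 : ∀ z ∈ ball (0 : ℂ) (r - 1), ‖(ρ * derivative B + p * B).eval z‖ ≤ 2 * U * β :=
    fun z hz => by
      have hz' := ball_subset_ball r1 hz
      rw [eval_add, eval_mul (p := p)]
      linarith [norm_add_le_of_le (stepP h le_rfl B hB z hz) (nmul (h.bd z hz').2.1 (hB z hz'))]
  have c1 : ∀ z ∈ ball (0 : ℂ) (r - 1), ‖(τ * B).eval z‖ ≤ U * β := fun z hz => by
    have hz' := ball_subset_ball r1 hz
    rw [eval_mul]
    exact nmul (h.bd z hz').2.2.2 (hB z hz')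
  have dB1 : (ρ * derivative B + p * B).natDegree ≤ B.natDegree + 1 :=
    dadd (deg h.dρ le_rfl) (dmul h.dp le_rfl (by omega))
  have dC1 : (τ * B).natDegree ≤ B.natDegree + 1 := dmul h.dτ.le le_rfl (by omega)
  have dA1 := deg h.dρ (le_refl A.natDegree)
  have eC : τ ^ 2 * (τ * B) * (τ * B) * A = τ ^ 4 * B ^ 2 * A := by ring
  generalize ρ * derivative B + p * B = B₁ at f1 f2 b1 dB1
  generalize τ * B = C₁ at f1 f2 c1 dC1 eC
  generalize ρ * derivative A = A₁ at f1 f2 dA1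
  have dC2 : (ρ * derivative C₁ + τ * B₁ + q * C₁).natDegree ≤ B.natDegree + 2 :=
    dadd (dadd (deg h.dρ dC1) (dmul h.dτ.le dB1 (by omega))) (dmul h.dq dC1 (by omega))
  have dB2 : (ρ * derivative B₁ + p * B₁).natDegree ≤ B.natDegree + 2 :=
    dadd (deg h.dρ dB1) (dmul h.dp dB1 (by omega))
  have dT : (τ ^ 4 * B ^ 2 * A).natDegree = A.natDegree + 2 * B.natDegree + 4 := by
    rw [natDegree_mul (by simp [hτ, hB0]) hA, natDegree_mul (by simp [hτ]) (by simp [hB0]),
      natDegree_pow, natDegree_pow, h.dτ]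
    omega
  have dR : ((ρ * derivative B₁ + p * B₁) * C₁ * A - B₁ * (ρ * derivative C₁ + τ * B₁ + q * C₁) * A +
      B * (ρ * derivative C₁ + τ * B₁ + q * C₁) * A₁ - B * C₁ * (ρ * derivative A₁)).natDegree ≤
      A.natDegree + 2 * B.natDegree + 3 :=
    dsub (dadd (dsub (dmul (dmul dB2 dC1 le_rfl) le_rfl (by omega))
      (dmul (dmul dB1 dC2 le_rfl) le_rfl (by omega))) (dmul (dmul le_rfl dC2 le_rfl) dA1 (by omega)))
      (dmul (dmul le_rfl dC1 le_rfl) (deg h.dρ dA1) (by omega))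
  have dlt := lt_of_le_of_lt dR (dT ▸ Nat.lt_succ_self _ : _ < (τ ^ 4 * B ^ 2 * A).natDegree)
  have key := lead (R := r - 3) (η := 18 * U ^ 4 * β ^ 2 * η) (by linarith) (_ + τ ^ 4 * B ^ 2 * A)
    fun z hz => by
      have h2 : z ∈ ball (0 : ℂ) (r - 1 - 1) := sphere_subset_ball (by linarith) hz
      have h1 : z ∈ ball (0 : ℂ) (r - 1) := ball_subset_ball (by linarith) h2
      have h0 := ball_subset_ball r1 h1
      obtain ⟨-, u2, u3, u4⟩ := h.bd z h0
      have b2 : ‖(ρ * derivative B₁ + p * B₁ + τ ^ 2 * C₁).eval z‖ ≤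
          U * (2 * U * β) + U * (2 * U * β) + U * U * (U * β) := by
        rw [eval_add, eval_add, eval_mul (p := p), eval_mul (p := τ ^ 2), sq, eval_mul (p := τ)]
        exact norm_add_le_of_le (norm_add_le_of_le (stepP h r1 _ b1 z h2) (nmul u2 (b1 z h1)))
          (nmul (nmul u4 u4) (c1 z h1))
      have c2 : ‖(ρ * derivative C₁ + τ * B₁ + q * C₁).eval z‖ ≤
          U * (U * β) + U * (2 * U * β) + U * (U * β) := by
        rw [eval_add, eval_add, eval_mul (p := q), eval_mul (p := τ)]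
        exact norm_add_le_of_le (norm_add_le_of_le (stepP h r1 _ c1 z h2) (nmul u4 (b1 z h1)))
          (nmul u3 (c1 z h1))
      have e := norm_sub_le_of_le (norm_add_le_of_le (nmul (norm_sub_le_of_le (nmul b2 (c1 z h1))
        (nmul (b1 z h1) c2)) (hΦ z h0)) (nmul (nmul (hB z h0) c2) (f1 z h1)))
        (nmul (nmul (hB z h0) (c1 z h1)) (f2 z h2))
      refine (le_of_eq (congrArg _ (?_ : ((ρ * derivative B₁ + p * B₁) * C₁ * A -
        B₁ * (ρ * derivative C₁ + τ * B₁ + q * C₁) * A +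
        B * (ρ * derivative C₁ + τ * B₁ + q * C₁) * A₁ - B * C₁ * (ρ * derivative A₁) +
        τ ^ 4 * B ^ 2 * A).eval z = _))).trans (e.trans ?_)
      · rw [← eC]
        simp only [eval_add, eval_sub, eval_mul, eval_pow]
        ring
      · have u : U ^ 3 * (β ^ 2 * η) ≤ U ^ 4 * (β ^ 2 * η) := by gcongr; norm_num
        nlinarith
  rw [leadingCoeff_add_of_degree_lt (degree_lt_degree dlt), natDegree_add_eq_right_of_natDegree_lt dlt,
    dT, leadingCoeff_mul, leadingCoeff_mul, leadingCoeff_pow, leadingCoeff_pow, norm_mul, norm_mul,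
    norm_pow, norm_pow] at key
  refine le_trans (mul_le_mul ?_ (pow_le_pow_right₀ (by linarith) (by omega)) (by
    have : 0 ≤ r - 3 := by linarith
    positivity) (by positivity)) key
  rw [mul_assoc, mul_comm]
  exact le_mul_of_one_le_left (by positivity) (one_le_pow₀ h.lτ)

end Pool.Agent.MP_ed4d7b_nt.K2

end
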