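import Pool.Agent.MP_ed4d7b_nt.k2.Spec

/-! Elimination for small degrees. -/

set_option autoImplicit false

noncomputable section

namespace Pool.Agent.MP_ed4d7b_nt.K2

open Finset Filter Metric Polynomial
open scoped Real Nat

namespace El2L

/-- the reflected polynomial is bounded on the unit disc -/
lemma refl_le {e : ℝ} {n : ℕ} (R : ℂ[X]) (hn : R.natDegree ≤ n)
    (h : ∀ w ∈ sphere (0 : ℂ) 1, ‖R.eval w‖ ≤ e) {z : ℂ} (hz : ‖z‖ ≤ 1) :
    ‖(reflect n R).eval z‖ ≤ e := by
  refine Complex.norm_le_of_forall_mem_frontier_norm_le (U := ball 0 1) isBounded_ball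
    (reflect n R).differentiable.diffContOnCl (fun w hw => ?_) ?_
  · rw [frontier_ball _ one_ne_zero, mem_sphere_zero_iff_norm] at hw
    have h0 : w⁻¹ ≠ 0 := inv_ne_zero fun e => by simp [e] at hw
    let _ := invertibleOfNonzero h0
    have e1 := eval₂_reflect_mul_pow (RingHom.id ℂ) w⁻¹ n R hn
    rw [invOf_eq_inv, inv_inv, eval₂_id, eval₂_id] at e1
    have e2 := h w⁻¹ (by simp [hw])
    rw [← e1, norm_mul, norm_pow, norm_inv, hw] at e2
    simpa using e2
  · rw [closure_ball _ one_ne_zero]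
    simpa using hz

lemma grow {e : ℝ} {n : ℕ} (R : ℂ[X]) (hn : R.natDegree ≤ n)
    (h : ∀ w ∈ sphere (0 : ℂ) 1, ‖R.eval w‖ ≤ e) {w : ℂ} (hw : 1 ≤ ‖w‖) :
    ‖R.eval w‖ ≤ e * ‖w‖ ^ n := by
  have h0 : w ≠ 0 := fun e => by
    rw [e, norm_zero] at hw
    linarith
  let _ := invertibleOfNonzero h0
  have e1 := eval₂_reflect_mul_pow (RingHom.id ℂ) w n R hn
  rw [invOf_eq_inv, eval₂_id, eval₂_id] at e1
  rw [← e1, norm_mul, norm_pow]
  gcongr
  exact refl_le R hn h (by rw [norm_inv]; exact inv_le_one_of_one_le₀ hw)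

end El2L

open El2L in
theorem el2 : El2S := by
  intro r U W l Y ρ p q τ y v hO hR A B β η D hD hB hβ hη
  have W4 := hR.W4
  have l1 := hR.l1
  have U1 := hO.one
  have l0 : (l : ℂ) ≠ 0 := by exact_mod_cast (by linarith : l ≠ 0)
  set ζ : ℂ[X] := C 3 * X + C (W : ℂ) with hζ
  set ξ : ℂ[X] := C (9 / (l : ℂ)) * X ^ 2 + C (6 * W / (l : ℂ)) * X with hξ
  have eζ : ∀ w, ζ.eval w = 3 * w + W := fun w => by simp [hζ]
  have eξ : ∀ w, ξ.eval w = ((3 * w + W) ^ 2 - (W : ℂ) ^ 2) / l := fun w => by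
    simp only [hξ, eval_add, eval_mul, eval_C, eval_pow, eval_X]
    field_simp
    ring
  have c9 : (9 / (l : ℂ)) ≠ 0 := div_ne_zero (by norm_num) l0
  have dξ : ξ.natDegree = 2 := by
    rw [hξ]
    compute_degree!
    exact fun e => l0 (by exact_mod_cast e)
  have lξ : ξ.leadingCoeff = 9 / (l : ℂ) := by
    rw [leadingCoeff, dξ, hξ]
    simp
  have dζ : ζ.natDegree ≤ 1 := by
    rw [hζ]
    compute_degree
  set B1 : ℂ[X] := ρ * derivative B + p * B with hB1
  set P0 : ℂ[X] := B * ρ * derivative A - B1 * A with hP0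
  set P1 : ℂ[X] := -(τ * B * A) with hP1
  have dρ : ∀ Q : ℂ[X], (ρ * derivative Q).natDegree ≤ Q.natDegree + 1 := fun Q => by
    by_cases h : Q.natDegree = 0
    · simp [derivative_of_natDegree_zero h]
    · have h1 := natDegree_derivative_lt h
      have h2 := hO.dρ
      have h3 := natDegree_mul_le (p := ρ) (q := derivative Q)
      omega
  have dB1 : B1.natDegree ≤ B.natDegree + 1 := by
    refine (natDegree_add_le _ _).trans (max_le (dρ B) ?_)
    have h2 := hO.dp
    have h3 := natDegree_mul_le (p := p) (q := B)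
    omega
  have dP0 : P0.natDegree ≤ D + 1 := by
    refine (natDegree_sub_le _ _).trans (max_le ?_ ?_)
    · have h3 := natDegree_mul_le (p := B) (q := ρ * derivative A)
      have h4 := dρ A
      rw [mul_assoc]
      omega
    · have h3 := natDegree_mul_le (p := B1) (q := A)
      omega
  have dP1 : P1.natDegree ≤ D + 1 := by
    have h2 := hO.dτ
    have h3 := natDegree_mul_le (p := τ) (q := B)
    have h4 := natDegree_mul_le (p := τ * B) (q := A)
    rw [hP1, natDegree_neg]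
    omega
  set PP : ℂ[X] := P0.comp ξ + ζ * P1.comp ξ with hPP
  have dPP : PP.natDegree ≤ 2 * D + 3 := by
    have h1 := natDegree_comp_le (p := P0) (q := ξ)
    have h2 := natDegree_comp_le (p := P1) (q := ξ)
    have h3 := natDegree_mul_le (p := ζ) (q := P1.comp ξ)
    rw [dξ] at h1 h2
    refine (natDegree_add_le _ _).trans (max_le ?_ ?_) <;> omega
  have ePP : ∀ w, PP.eval w = P0.eval (ξ.eval w) + (3 * w + W) * P1.eval (ξ.eval w) := fun w => by
    simp only [hPP, eval_add, eval_mul, eval_comp, eζ]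
  have nW : ‖(W : ℂ)‖ = W := by rw [Complex.norm_real, Real.norm_of_nonneg (by linarith)]
  have n3 : ∀ w : ℂ, ‖3 * w‖ = 3 * ‖w‖ := fun w => by simp
  have s1 : ∀ w ∈ sphere (0 : ℂ) 1, 3 * w + W ∈ sphere (W : ℂ) 3 := fun w hw => by
    rw [mem_sphere_zero_iff_norm] at hw
    rw [mem_sphere_iff_norm, add_sub_cancel_right, n3, hw, mul_one]
  have s2 : ∀ w ∈ sphere (0 : ℂ) 1, ξ.eval w ∈ ball (0 : ℂ) (r - 1) := fun w hw => by
    rw [mem_sphere_zero_iff_norm] at hw
    have h1 : ‖3 * w + 2 * W‖ ≤ 2 * W + 3 := by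
      refine (norm_add_le _ _).trans ?_
      rw [n3, hw, norm_mul, nW]
      simp [add_comm]
    rw [mem_ball_zero_iff, eξ, show (3 * w + W) ^ 2 - (W : ℂ) ^ 2 = 3 * w * (3 * w + 2 * W) by ring,
      norm_div, norm_mul, n3, hw, Complex.norm_real, Real.norm_of_nonneg (by linarith)]
    refine lt_of_le_of_lt ((div_le_self (by positivity) l1).trans ?_) hR.rad
    linarith
  have s3 : ∀ w ∈ sphere (0 : ℂ) 1, ξ.eval w ∈ ball (0 : ℂ) r := fun w hw =>
    ball_subset_ball (by linarith) (s2 w hw)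
  have r0 : (0 : ℂ) ∈ ball (0 : ℂ) r := mem_ball_self (by linarith [hR.rad])
  have β0 : 0 ≤ β := (norm_nonneg _).trans (hβ 0 r0)
  have η0 : 0 ≤ η := (norm_nonneg _).trans (hη 0 r0)
  have dG : DifferentiableOn ℂ (fun z => A.eval z + B.eval z * y z) (ball 0 r) := fun z hz => by
    obtain ⟨y', -, h1, -⟩ := hO.eq z hz
    exact ((A.hasDerivAt z).add ((B.hasDerivAt z).mul h1)).differentiableAt.differentiableWithinAt
  have b1 : ∀ w ∈ sphere (0 : ℂ) 1, ‖PP.eval w‖ ≤ 4 * U ^ 2 * β * η := fun w hw => by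
    have hx := s3 w hw
    obtain ⟨y', v', h1, -, h2, -⟩ := hO.eq _ hx
    obtain ⟨u1, u2, -, u3⟩ := hO.bd _ hx
    have h3 := (hR.sph _ (s1 w hw)).1
    rw [← eξ] at h3
    have h4 := cauchy dG hη (s2 w hw)
    have h5 := cauchy B.differentiable.differentiableOn hβ (s2 w hw)
    have h6 : HasDerivAt (fun z => A.eval z + B.eval z * y z) _ (ξ.eval w) :=
      (A.hasDerivAt _).add ((B.hasDerivAt _).mul h1)
    rw [h6.deriv] at h4
    rw [B.deriv] at h5
    have h7 := hβ _ hx
    have h8 := hη _ hx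
    have h9 : ‖3 * w + W‖ ≤ U := by
      refine (norm_add_le _ _).trans ?_
      rw [n3, mem_sphere_zero_iff_norm.1 hw, nW]
      linarith [hR.WU]
    rw [ePP]
    generalize ξ.eval w = x at *
    generalize 3 * w + W = Z at *
    have e : P0.eval x + Z * P1.eval x =
        B.eval x * ρ.eval x * (A.derivative.eval x + (B.derivative.eval x * y x + B.eval x * y')) -
        (ρ.eval x * B.derivative.eval x + p.eval x * B.eval x + Z * τ.eval x * B.eval x) *
          (A.eval x + B.eval x * y x) := by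
      simp only [hP0, hP1, hB1, eval_sub, eval_add, eval_mul, eval_neg]
      rw [h3] at h2
      linear_combination (-B.eval x ^ 2) * h2
    rw [e]
    have U0 : 0 ≤ U := by linarith
    calc _ ≤ β * U * η + (U * β + U * β + U * U * β) * η := by
          refine (norm_sub_le _ _).trans (add_le_add ?_ ?_)
          · rw [norm_mul, norm_mul]
            gcongr
          · rw [norm_mul]
            gcongr
            refine (norm_add₃_le).trans ?_
            simp only [norm_mul]
            gcongr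
      _ ≤ _ := by
          have h10 : 0 ≤ β * η * (U * (U - 1)) := by
            have : 0 ≤ U - 1 := by linarith
            positivity
          nlinarith
  obtain ⟨w, hw, hm⟩ := (isCompact_sphere (0 : ℂ) 1).exists_isMaxOn
    (NormedSpace.sphere_nonempty.2 zero_le_one) (B.comp ξ).continuous.norm.continuousOn
  have b2 : 1 ≤ ‖B.eval (ξ.eval w)‖ := by
    have h1 := lead_le (c := 0) (η := ‖(B.comp ξ).eval w‖) (B.comp ξ) fun z hz => hm hz
    rw [leadingCoeff_comp (by omega), lξ, norm_mul, norm_pow, eval_comp] at h1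
    refine le_trans (one_le_mul_of_one_le_of_one_le hB (one_le_pow₀ ?_)) h1
    rw [norm_div, Complex.norm_real, Real.norm_of_nonneg (by linarith), le_div_iff₀ (by linarith)]
    simpa using hR.l9
  have hw1 := mem_sphere_zero_iff_norm.1 hw
  set w' : ℂ := -(w + 2 * W / 3) with hw'
  have n1 : ‖2 * (W : ℂ) / 3‖ = 2 * W / 3 := by
    rw [norm_div, norm_mul, nW]
    simp
  have g1 : 1 ≤ ‖w'‖ := by
    have h1 := norm_sub_le (w + 2 * W / 3) w
    rw [add_sub_cancel_left, n1, hw1] at h1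
    rw [hw', norm_neg]
    linarith
  have g2 : ‖w'‖ ≤ 2 * W + 3 := by
    rw [hw', norm_neg]
    refine (norm_add_le _ _).trans ?_
    rw [n1, hw1]
    linarith
  have e0 : 0 ≤ 4 * U ^ 2 * β * η := by positivity
  have g3 : ‖PP.eval w'‖ ≤ 4 * U ^ 2 * β * η * (2 * W + 3) ^ (2 * D + 3) :=
    (grow PP dPP b1 g1).trans (by gcongr)
  have g4 : ‖PP.eval w‖ ≤ 4 * U ^ 2 * β * η * (2 * W + 3) ^ (2 * D + 3) :=
    (b1 w hw).trans (le_mul_of_one_le_right e0 (one_le_pow₀ (by linarith)))
  have e1 : 3 * w' + W = -(3 * w + W) := by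
    rw [hw']
    ring
  have e2 : ξ.eval w' = ξ.eval w := by rw [eξ, eξ, e1, neg_sq]
  have e3 : τ.eval (ξ.eval w) = (3 * w + W) ^ 2 := by
    rw [hR.eq, eξ]
    simp only [eval_add, eval_mul, eval_C, eval_X]
    field_simp
    ring
  have e4 : PP.eval w' - PP.eval w =
      2 * ((3 * w + W) ^ 3 * B.eval (ξ.eval w) * A.eval (ξ.eval w)) := by
    rw [ePP, ePP, e1, e2]
    simp only [hP1, eval_neg, eval_mul, e3]
    ring
  have g5 : 1 ≤ ‖3 * w + W‖ := by
    have h1 := norm_sub_le (3 * w + W) (3 * w)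
    rw [add_sub_cancel_left, nW, n3, hw1] at h1
    linarith
  have g6 : ‖A.eval (ξ.eval w)‖ ≤ 4 * U ^ 2 * β * η * (2 * W + 3) ^ (2 * D + 3) := by
    have h1 := norm_sub_le (PP.eval w') (PP.eval w)
    rw [e4, norm_mul, norm_mul, norm_mul, norm_pow, Complex.norm_ofNat] at h1
    have h2 := le_mul_of_one_le_left (norm_nonneg (A.eval (ξ.eval w)))
      (one_le_mul_of_one_le_of_one_le (one_le_pow₀ (n := 3) g5) b2)
    linarith
  have g7 := (hR.sph _ (s1 w hw)).2
  rw [← eξ] at g7
  have g8 := norm_sub_le (A.eval (ξ.eval w) + B.eval (ξ.eval w) * y (ξ.eval w)) (A.eval (ξ.eval w))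
  rw [add_sub_cancel_left, norm_mul] at g8
  have g9 := le_mul_of_one_le_left (norm_nonneg (y (ξ.eval w))) b2
  linarith [hη _ (s3 w hw)]

end Pool.Agent.MP_ed4d7b_nt.K2

end
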