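import Pool.Agent.MP_ed4d7b_nt.k2.Spec

/-! All exponents `k ≥ 2`: the functions of one window. -/

set_option autoImplicit false

noncomputable section

namespace Pool.Agent.MP_ed4d7b_nt.K2

open Finset Filter Metric Polynomial
open scoped Real Nat

namespace FunL

lemma lm1 : 1 ≤ lm := by
  have := Real.pi_gt_three
  unfold lm
  nlinarith

lemma lm7 : lm ≤ 7 := by
  have h1 := Real.pi_lt_d2
  have h2 := Real.pi_pos
  unfold lm
  nlinarith

lemma lm0 : (lm : ℂ) ≠ 0 := by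
  have := lm1
  exact_mod_cast (by linarith : lm ≠ 0)

lemma mu_sq {W : ℝ} {z : ℂ} (h : (W : ℂ) ^ 2 + lm * z ≠ 0) : mu W z ^ 2 = (W : ℂ) ^ 2 + lm * z := by
  rw [mu, sq, ← Complex.exp_add, add_halves, Complex.exp_log h]

lemma mu_re (W : ℝ) (z : ℂ) : 0 ≤ (mu W z).re := by
  rw [mu, Complex.exp_re]
  refine mul_nonneg (Real.exp_pos _).le ?_
  rw [Complex.div_ofNat_im, Complex.log_im]
  have h1 := Complex.neg_pi_lt_arg ((W : ℂ) ^ 2 + lm * z)
  have h2 := Complex.arg_le_pi ((W : ℂ) ^ 2 + lm * z)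
  exact Real.cos_nonneg_of_neg_pi_div_two_le_of_le (by linarith) (by linarith)

lemma mu_eq {W : ℝ} {z Z : ℂ} (h : Z ^ 2 = (W : ℂ) ^ 2 + lm * z) (hZ : 0 < Z.re) : mu W z = Z := by
  have h0 : Z ≠ 0 := fun e => by simp [e] at hZ
  have h1 := mu_sq (W := W) (z := z) (h ▸ pow_ne_zero 2 h0)
  rcases sq_eq_sq_iff_eq_or_eq_neg.1 (h1.trans h.symm) with e | e
  · exact e
  · have := mu_re W z
    rw [e, Complex.neg_re] at this
    linarith

lemma mu_real {W t : ℝ} (hW : 0 < W) (ht : 0 ≤ t) : mu W t = (√(W ^ 2 + lm * t) : ℝ) := by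
  have h : 0 < W ^ 2 + lm * t := by
    have := lm1
    positivity
  refine mu_eq ?_ ?_
  · rw [← Complex.ofReal_pow, Real.sq_sqrt h.le]
    push_cast
    rfl
  · rw [Complex.ofReal_re]
    exact Real.sqrt_pos.2 h

variable {W : ℝ} {z : ℂ}

lemma small (hz : ‖z‖ < W ^ 2 / 14) : ‖(lm : ℂ) * z‖ < W ^ 2 / 2 := by
  rw [norm_mul, Complex.norm_real, Real.norm_of_nonneg (by linarith [lm1])]
  nlinarith [lm7, norm_nonneg z]

lemma slit (hz : ‖z‖ < W ^ 2 / 14) : (W : ℂ) ^ 2 + lm * z ∈ Complex.slitPlane := by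
  have h1 := (abs_le.1 (Complex.abs_re_le_norm ((lm : ℂ) * z))).1
  have h2 := small hz
  refine Or.inl ?_
  rw [Complex.add_re, ← Complex.ofReal_pow, Complex.ofReal_re]
  nlinarith [sq_nonneg W]

lemma mu_sq' (hz : ‖z‖ < W ^ 2 / 14) : mu W z ^ 2 = (W : ℂ) ^ 2 + lm * z :=
  mu_sq (Complex.slitPlane_ne_zero (slit hz))

lemma mu_near (hW : 0 < W) (hz : ‖z‖ < W ^ 2 / 14) : ‖mu W z - W‖ ≤ W / 2 := by
  have h1 : (mu W z - W) * (mu W z + W) = lm * z := by linear_combination mu_sq' hz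
  have h2 := small hz
  rw [← h1, norm_mul] at h2
  have h3 : W ≤ ‖mu W z + W‖ := by
    refine le_trans ?_ (Complex.re_le_norm _)
    rw [Complex.add_re, Complex.ofReal_re]
    linarith [mu_re W z]
  have h4 := mul_le_mul_of_nonneg_left h3 (norm_nonneg (mu W z - W))
  by_contra c
  nlinarith [not_le.1 c]

lemma mu_big (hW : 0 < W) (hz : ‖z‖ < W ^ 2 / 14) : W / 2 ≤ (mu W z).re := by
  have := (abs_le.1 ((Complex.abs_re_le_norm _).trans (mu_near hW hz))).1
  rw [Complex.sub_re, Complex.ofReal_re] at this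
  linarith

lemma mu_der (hz : ‖z‖ < W ^ 2 / 14) : HasDerivAt (mu W) (lm / (2 * mu W z)) z := by
  have h1 := ((((hasDerivAt_id z).const_mul (lm : ℂ)).const_add ((W : ℂ) ^ 2)).clog
    (slit hz)).div_const 2 |>.cexp
  have h0 : mu W z ≠ 0 := Complex.exp_ne_zero _
  refine HasDerivAt.congr_deriv h1 ?_
  change mu W z * (lm * 1 / ((W : ℂ) ^ 2 + lm * z) / 2) = _
  rw [← mu_sq' hz]
  field_simp

lemma wk_le {c c₁ : ℝ} (hc : 0 < c) (k : ℕ) {Z : ℂ} (h2 : 2 ≤ Z.re) (h3 : c₁ ^ 2 / c ≤ Z.re) :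
    ‖wk c c₁ k Z‖ ≤ 1 := by
  unfold wk
  split_ifs
  swap
  · simp
  have a2 : 2 ≤ ‖Z‖ := h2.trans (Complex.re_le_norm Z)
  have a3 : c₁ ^ 2 ≤ ‖Z‖ * c := (div_le_iff₀ hc).1 (h3.trans (Complex.re_le_norm Z))
  have b1 : 1 ≤ ‖Z - 1‖ := by
    refine le_trans ?_ (Complex.re_le_norm _)
    rw [Complex.sub_re, Complex.one_re]
    linarith
  have b2 : ‖Z - 2‖ ≤ 2 * ‖Z‖ := by
    have := norm_sub_le Z 2
    rw [Complex.norm_two] at this
    linarith
  have f0 : 0 < ‖fk c 2 Z‖ := norm_pos_iff.2 (Complex.exp_ne_zero _)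
  have f2 : ‖fk c 2 Z‖ ^ 2 = Real.exp Z.re * ‖Z - 1‖ / ‖Z‖ ^ 3 * c := by
    rw [fk_norm, sq, ← Real.exp_add, Nat.cast_ofNat, add_halves, Real.exp_add, Real.exp_sub,
      Real.exp_add, Real.exp_log hc, Real.exp_log (by linarith),
      show (3 : ℝ) * Real.log ‖Z‖ = Real.log (‖Z‖ ^ 3) by rw [Real.log_pow]; norm_num,
      Real.exp_log (by positivity)]
  have e2 : Real.exp (Z.re / 2) ^ 2 = Real.exp Z.re := by rw [sq, ← Real.exp_add, add_halves]
  rw [norm_div, norm_mul, norm_div, norm_mul, norm_mul, Complex.norm_two, Complex.norm_exp,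
    Complex.div_ofNat_re, norm_pow, Complex.norm_real, Real.norm_eq_abs,
    div_le_one (by positivity)]
  refine (pow_le_pow_iff_left₀ (by positivity) (by positivity) two_ne_zero).1 ?_
  rw [mul_pow, mul_pow, f2, e2, div_pow, mul_pow, sq_abs]
  have hE := Real.exp_pos Z.re
  generalize Real.exp Z.re = E at *
  generalize ‖Z‖ = a at *
  generalize ‖Z - 1‖ = b at *
  have n0 := norm_nonneg (Z - 2)
  generalize ‖Z - 2‖ = d at *
  have a0 : 0 < a := by linarith
  have k1 : c₁ ^ 2 * d ^ 2 ≤ a * c * (2 * a) ^ 2 :=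
    mul_le_mul a3 (pow_le_pow_left₀ n0 b2 2) (by positivity) (by positivity)
  calc c₁ ^ 2 * d ^ 2 / (a ^ 3) ^ 2 * E ≤ a * c * (2 * a) ^ 2 / (a ^ 3) ^ 2 * E := by gcongr
    _ = 2 ^ 2 * (E * 1 / a ^ 3 * c) := by field_simp
    _ ≤ _ := by gcongr

lemma ode (c : ℝ) {k : ℕ} (hk : 2 ≤ k) (hW : 4 ≤ W) {h : ℝ} (hh : h ≤ W ^ 2 / 14) :
    Ode h (12 * k * W ^ 4)
      (C (2 * k / lm : ℂ) * ((C (lm : ℂ) * X + C ((W : ℂ) ^ 2) - 1) *
        (C (lm : ℂ) * X + C ((W : ℂ) ^ 2))))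
      (C 3 - C 2 * (C (lm : ℂ) * X + C ((W : ℂ) ^ 2)))
      (C 3 - C 2 * (C (lm : ℂ) * X + C ((W : ℂ) ^ 2)) +
        C (k : ℂ) * (C (lm : ℂ) * X + C ((W : ℂ) ^ 2) - 1))
      (C (lm : ℂ) * X + C ((W : ℂ) ^ 2)) (fun z => fk c k (mu W z))
      fun z => mu W z * fk c k (mu W z) := by
  have k2 : (2 : ℝ) ≤ k := by exact_mod_cast hk
  have w2 : 16 ≤ W ^ 2 := by nlinarith
  have w4 : W ^ 4 = W ^ 2 * W ^ 2 := by ring
  refine ⟨by compute_degree, by compute_degree, by compute_degree, natDegree_linear lm0, ?_, ?_,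
    fun z hz => ?_, fun z hz => ?_⟩
  · rw [leadingCoeff_linear lm0, Complex.norm_real, Real.norm_of_nonneg (by linarith [lm1])]
    exact lm1
  · nlinarith
  · have hz' : ‖z‖ < W ^ 2 / 14 := (mem_ball_zero_iff.1 hz).trans_le hh
    simp only [eval_mul, eval_add, eval_sub, eval_C, eval_X, eval_one]
    have t1 : ‖(lm : ℂ) * z + (W : ℂ) ^ 2‖ ≤ 3 / 2 * W ^ 2 := by
      have := norm_add_le ((lm : ℂ) * z) ((W : ℂ) ^ 2)
      rw [norm_pow, Complex.norm_real, Real.norm_eq_abs, sq_abs] at this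
      linarith [small hz']
    generalize (lm : ℂ) * z + (W : ℂ) ^ 2 = τ at *
    have t2 : ‖τ - 1‖ ≤ 2 * W ^ 2 := by
      have := norm_sub_le τ 1
      rw [norm_one] at this
      linarith
    have t3 : ‖3 - 2 * τ‖ ≤ 4 * W ^ 2 := by
      have := norm_sub_le 3 (2 * τ)
      rw [norm_mul, Complex.norm_two, Complex.norm_ofNat] at this
      linarith
    have t4 : ‖(2 * k / lm : ℂ)‖ ≤ 2 * k := by
      rw [norm_div, norm_mul, Complex.norm_two, Complex.norm_natCast, Complex.norm_real,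
        Real.norm_of_nonneg (by linarith [lm1])]
      exact div_le_self (by positivity) lm1
    have t5 : ‖(k : ℂ) * (τ - 1)‖ ≤ k * (2 * W ^ 2) := by
      rw [norm_mul, Complex.norm_natCast]
      gcongr
    have t6 : W ^ 2 * 16 ≤ W ^ 2 * W ^ 2 := by gcongr
    have t7 : 2 * W ^ 2 ≤ k * W ^ 2 := by gcongr
    have t8 : k * (W ^ 2 * 16) ≤ k * (W ^ 2 * W ^ 2) := by gcongr
    rw [w4]
    refine ⟨?_, by linarith, ?_, by linarith⟩
    · rw [norm_mul, norm_mul]
      have := mul_le_mul t4 (mul_le_mul t2 t1 (norm_nonneg _) (by positivity)) (by positivity)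
        (by positivity)
      linarith
    · linarith [norm_add_le (3 - 2 * τ) ((k : ℂ) * (τ - 1))]
  · have hz' : ‖z‖ < W ^ 2 / 14 := (mem_ball_zero_iff.1 hz).trans_le hh
    have r1 : 1 < (mu W z).re := by linarith [mu_big (by linarith) hz']
    have d1 := (fk_deriv c k r1).comp z (mu_der hz')
    have d2 := (mu_der hz').mul d1
    have e0 : mu W z ≠ 0 := Complex.exp_ne_zero _
    have e1 : mu W z - 1 ≠ 0 := fun e => by
      rw [sub_eq_zero.1 e, Complex.one_re] at r1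
      exact lt_irrefl _ r1
    have e2 : (k : ℂ) ≠ 0 := by exact_mod_cast (by omega : k ≠ 0)
    have e3 := lm0
    have e4 : (lm : ℂ) * z + (W : ℂ) ^ 2 = mu W z ^ 2 := by rw [mu_sq' hz', add_comm]
    refine ⟨_, _, d1, d2, ?_, ?_⟩
    all_goals
      simp only [eval_mul, eval_add, eval_sub, eval_C, eval_X, eval_one, e4, Function.comp_apply]
      field_simp
      ring

end FunL

open FunL in
theorem fun' : FunS := by
  intro c c₁ k hc hk
  filter_upwards [eventually_ge_atTop 5, eventually_ge_atTop (2 * (c₁ ^ 2 / c)), fk_bound hc,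
    ev_pow_le (8 * Real.exp 3 / c) 3 one_half_pos] with W h5 h6 h7 h8
  have W0 : 0 < W := by linarith
  have k2 : (2 : ℝ) ≤ k := by exact_mod_cast hk
  have w2 : 0 < W ^ 2 := by positivity
  refine ⟨fun t ht => mu_real W0 ht, fun h h1 h2 => ?_⟩
  have big : ∀ z : ℂ, ‖z‖ < W ^ 2 / 14 → 1 < (mu W z).re := fun z hz => by
    linarith [mu_big W0 hz]
  have dy : ∀ z : ℂ, ‖z‖ < W ^ 2 / 14 → DifferentiableAt ℂ (fun z => fk c 2 (mu W z)) z ∧
      DifferentiableAt ℂ (fun z => fk c k (mu W z)) z := fun z hz =>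
    ⟨((fk_deriv c 2 (big z hz)).comp z (mu_der hz)).differentiableAt,
      ((fk_deriv c k (big z hz)).comp z (mu_der hz)).differentiableAt⟩
  refine ⟨⟨_, _, _, _, _, ode c hk (by linarith) (by linarith), by linarith, lm1,
    by linarith [lm7], rfl, h1, ?_, fun Z hZ => ?_⟩, by linarith,
    fun z hz => (dy z (mem_ball_zero_iff.1 hz)).2.differentiableWithinAt, fun z hz => ?_,
    fun z hz => ?_, fun t => ?_⟩
  · have a1 : W ≤ W ^ 4 := le_self_pow₀ (by linarith) (by norm_num)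
    nlinarith
  · rw [mem_sphere_iff_norm] at hZ
    have a1 := (abs_le.1 ((Complex.abs_re_le_norm _).trans hZ.le)).1
    rw [Complex.sub_re, Complex.ofReal_re] at a1
    have a2 : mu W ((Z ^ 2 - (W : ℂ) ^ 2) / lm) = Z := by
      refine mu_eq ?_ (by linarith)
      have := lm0
      field_simp
      ring
    simp only [a2, true_and]
    have a3 : 1 ≤ ‖Z - 1‖ := by
      refine le_trans ?_ (Complex.re_le_norm _)
      rw [Complex.sub_re, Complex.one_re]
      linarith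
    have a4 : ‖Z‖ ≤ 2 * W := by
      have := norm_le_norm_add_norm_sub' Z (W : ℂ)
      rw [Complex.norm_real, Real.norm_of_nonneg W0.le] at this
      linarith
    have a5 : 0 < ‖Z‖ := lt_of_lt_of_le (by linarith) (Complex.re_le_norm Z)
    have a6 : 3 * Real.log ‖Z‖ ≤ 1 / 2 * W - 3 + Real.log c := by
      rw [show (3 : ℝ) * Real.log ‖Z‖ = Real.log (‖Z‖ ^ 3) by rw [Real.log_pow]; norm_num,
        Real.log_le_iff_le_exp (by positivity), Real.exp_add, Real.exp_sub, Real.exp_log hc]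
      calc ‖Z‖ ^ 3 ≤ (2 * W) ^ 3 := by gcongr
        _ = 8 * Real.exp 3 / c * W ^ 3 / Real.exp 3 * c := by field_simp; norm_num
        _ ≤ _ := by gcongr
    rw [fk_norm, ← div_div]
    refine Real.exp_le_exp.2 (div_le_div_of_nonneg_right ?_ (by linarith))
    linarith [Real.log_nonneg a3]
  · have hz' := mem_ball_zero_iff.1 hz
    refine DifferentiableAt.differentiableWithinAt ?_
    unfold wk
    split_ifs
    · have m := (mu_der hz').differentiableAt
      have e0 : mu W z ≠ 0 := Complex.exp_ne_zero _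
      have e1 : fk c 2 (mu W z) ≠ 0 := Complex.exp_ne_zero _
      exact ((((m.sub_const 2).const_mul _).div (m.pow 3) (pow_ne_zero 3 e0)).mul
        (m.div_const 2).cexp).div ((dy z hz').1.const_mul 2) (mul_ne_zero two_ne_zero e1)
    · exact differentiableAt_const _
  · have hz' : ‖z‖ < W ^ 2 / 14 := by linarith
    have a1 := mu_big W0 hz'
    have a2 := wk_le (c₁ := c₁) hc k (Z := mu W z) (by linarith) (by linarith)
    have a3 := (h7 k (by omega) (mu W z) (mem_closedBall_iff_norm.2 (mu_near W0 hz'))).2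
    have a4 : Real.exp (2 * W / k) ≤ Real.exp W :=
      Real.exp_le_exp.2 (by rw [div_le_iff₀ (by linarith)]; nlinarith)
    have a5 : Real.exp (2 * W) = Real.exp W * Real.exp W := by rw [← Real.exp_add, two_mul]
    have a6 := Real.add_one_le_exp W
    refine ⟨(norm_add_le _ _).trans ?_, a2⟩
    nlinarith
  · have a1 : 1 < √(W ^ 2 + lm * t) := by
      refine Real.lt_sqrt_of_sq_lt ?_
      have : 0 ≤ lm * t := mul_nonneg (by linarith [lm1]) (Nat.cast_nonneg t)
      nlinarith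
    have a2 := mu_real W0 (Nat.cast_nonneg t)
    rw [Complex.ofReal_natCast] at a2
    simp only [a2]
    generalize √(W ^ 2 + lm * t) = s at *
    obtain ⟨r, -, r1, -⟩ := fk_real hc (k := k) (by omega) a1
    obtain ⟨r', -, r2, -⟩ := fk_real hc (k := 2) (by omega) a1
    unfold wk
    split_ifs
    · refine ⟨r + c₁ * (s - 2) / s ^ 3 * Real.exp (s / 2) / (2 * r'), ?_⟩
      rw [r1, r2]
      push_cast
      rfl
    · exact ⟨r, by rw [r1, add_zero]⟩

end Pool.Agent.MP_ed4d7b_nt.K2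

end
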