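import Pool.Agent.MP_ed4d7b_nt.k2.Spec

/-! A polynomial that is small at distinct natural numbers is small on a disc. -/

set_option autoImplicit false

noncomputable section

namespace Pool.Agent.MP_ed4d7b_nt.K2

open Finset Polynomial
open scoped Nat

namespace LagL

theorem fact_le (T : Finset ℕ) : (∀ j ∈ T, 0 < j) → T.card ! ≤ ∏ j ∈ T, j := by
  induction T using Finset.induction_on_max with
  | empty => simp
  | insert m T hm ih =>
    intro h
    have hn : m ∉ T := fun k => lt_irrefl _ (hm m k)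
    have h1 : T ⊆ Ioo 0 m := fun j hj => mem_Ioo.2 ⟨h j (mem_insert_of_mem hj), hm j hj⟩
    have h2 := card_le_card h1
    have h3 := h m (mem_insert_self _ _)
    rw [Nat.card_Ioo] at h2
    rw [card_insert_of_notMem hn, prod_insert hn, Nat.factorial_succ]
    exact Nat.mul_le_mul (by omega) (ih fun j hj => h j (mem_insert_of_mem hj))

theorem fact_le' (T : Finset ℕ) (f : ℕ → ℕ) (hf : Set.InjOn f T) (h : ∀ j ∈ T, 0 < f j) :
    T.card ! ≤ ∏ j ∈ T, f j := by
  have := fact_le (T.image f) fun j hj => by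
    obtain ⟨i, hi, rfl⟩ := mem_image.1 hj
    exact h i hi
  rwa [card_image_of_injOn hf, prod_image hf] at this

theorem dist_prod (T : Finset ℕ) (i : ℕ) (hi : i ∉ T) :
    (T.card ! : ℝ) ≤ 2 ^ T.card * ∏ j ∈ T, ‖(i : ℂ) - j‖ := by
  have h1 := fact_le' (T.filter (· < i)) (fun j => i - j)
    (fun x hx y hy e => by
      have a1 := (mem_filter.1 (mem_coe.1 hx)).2
      have a2 := (mem_filter.1 (mem_coe.1 hy)).2
      simp only at e
      omega)
    fun j hj => Nat.sub_pos_of_lt (mem_filter.1 hj).2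
  have h2 := fact_le' (T.filter (¬ · < i)) (fun j => j - i)
    (fun x hx y hy e => by
      have a1 := (mem_filter.1 (mem_coe.1 hx)).2
      have a2 := (mem_filter.1 (mem_coe.1 hy)).2
      simp only at e
      omega)
    fun j hj => by
      have a1 := (mem_filter.1 hj).2
      have a2 : j ≠ i := fun e => hi (e ▸ (mem_filter.1 hj).1)
      omega
  have e1 : ∏ j ∈ T.filter (· < i), ‖(i : ℂ) - j‖ =
      ((∏ j ∈ T.filter (· < i), (i - j) : ℕ) : ℝ) := by
    rw [Nat.cast_prod]
    refine prod_congr rfl fun j hj => ?_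
    rw [← Nat.cast_sub (mem_filter.1 hj).2.le, Complex.norm_natCast]
  have e2 : ∏ j ∈ T.filter (¬ · < i), ‖(i : ℂ) - j‖ =
      ((∏ j ∈ T.filter (¬ · < i), (j - i) : ℕ) : ℝ) := by
    rw [Nat.cast_prod]
    refine prod_congr rfl fun j hj => ?_
    rw [norm_sub_rev, ← Nat.cast_sub (not_lt.1 (mem_filter.1 hj).2), Complex.norm_natCast]
  rw [← prod_filter_mul_prod_filter_not T (· < i), e1, e2]
  have h3 := card_filter_add_card_filter_not (s := T) (· < i)
  have h4 := Nat.add_choose_mul_factorial_mul_factorial (T.filter (· < i)).card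
    (T.filter (¬ · < i)).card
  rw [h3, mul_assoc] at h4
  have h5 := h4.symm.trans_le (Nat.mul_le_mul (Nat.choose_le_two_pow _ _) (Nat.mul_le_mul h1 h2))
  exact_mod_cast h5

end LagL

theorem lag : LagS := by
  intro a h δ S Q hS hQ hb z hz
  have hv : Set.InjOn (fun n : ℕ => (n : ℂ)) S := fun x _ y _ e => Nat.cast_injective e
  have hd : Q.degree < (S.card : ℕ) :=
    degree_le_natDegree.trans_lt (Nat.cast_lt.2 (by omega))
  have h0 : 0 ≤ h := (norm_nonneg z).trans hz
  have f0 : (0 : ℝ) < a ! := Nat.cast_pos.2 a.factorial_pos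
  have key : ∀ i ∈ S, ‖(C (Q.eval (i : ℂ)) * Lagrange.basis S (fun n : ℕ => (n : ℂ)) i).eval z‖ ≤
      δ * ((4 * h) ^ a / a !) := fun i hi => by
    have hc : (S.erase i).card = a := by rw [card_erase_of_mem hi, hS]; rfl
    have h1 := LagL.dist_prod (S.erase i) i (notMem_erase _ _)
    rw [hc] at h1
    have h2 : ∏ j ∈ S.erase i, ‖z - j‖ ≤ (2 * h) ^ a := by
      rw [← hc, ← prod_const]
      refine prod_le_prod (fun _ _ => norm_nonneg _) fun j hj => (norm_sub_le _ _).trans ?_
      rw [Complex.norm_natCast]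
      linarith [(hb j (mem_of_mem_erase hj)).1]
    have h3 : 0 < ∏ j ∈ S.erase i, ‖(i : ℂ) - j‖ :=
      (mul_pos_iff_of_pos_left (by positivity)).1 (f0.trans_le h1)
    rw [eval_mul, eval_C, norm_mul]
    refine mul_le_mul (hb i hi).2 ?_ (norm_nonneg _) ((norm_nonneg _).trans (hb i hi).2)
    simp only [Lagrange.basis, Lagrange.basisDivisor, eval_prod, eval_mul, eval_C, eval_sub,
      eval_X, norm_prod, norm_mul, norm_inv, prod_mul_distrib, prod_inv_distrib]
    rw [inv_mul_eq_div, div_le_div_iff₀ h3 f0, show 4 * h = 2 * h * 2 by ring, mul_pow _ 2,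
      mul_assoc]
    exact mul_le_mul h2 h1 f0.le (by positivity)
  rw [Lagrange.eq_interpolate hv hd, Lagrange.interpolate_apply, eval_finsetSum]
  refine (norm_sum_le _ _).trans ((sum_le_sum key).trans_eq ?_)
  rw [sum_const, hS, nsmul_eq_mul, lam]
  push_cast
  ring

end Pool.Agent.MP_ed4d7b_nt.K2

end
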