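import Pool.Agent.MP_ed4d7b_nt.k2.Spec

/-! The choice of the parameters. -/

set_option autoImplicit false

noncomputable section

namespace Pool.Agent.MP_ed4d7b_nt.K2

open Filter Real
open scoped Nat

namespace NumL

lemma pow_le_exp {x y z : ℝ} {n : ℕ} (hx : 0 ≤ x) (h : x ≤ exp y) (h2 : n * y ≤ z) :
    x ^ n ≤ exp z :=
  (pow_le_pow_left₀ hx h n).trans (by rw [← Real.exp_nat_mul]; exact exp_le_exp.2 h2)

lemma mul_le_exp {x y u v z : ℝ} (hy : 0 ≤ y) (h : x ≤ exp u) (h' : y ≤ exp v) (h2 : u + v ≤ z) :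
    x * y ≤ exp z :=
  (mul_le_mul h h' hy (exp_pos u).le).trans (by rw [← exp_add]; exact exp_le_exp.2 h2)

lemma core (k : ℕ) (e κ θ W L h : ℝ) (hk : 2 ≤ k) (κ0 : 0 < κ) (κe : 6 * κ ≤ e)
    (κk : 70 * κ ≤ 1 / (2 * k)) (hθ : θ = κ ^ 2 / 12544) (hL : exp L = W) (L15 : 15 ≤ L)
    (hh : h = W * exp (θ * L)) (c1 : 4 / θ ≤ exp (θ * L / 2)) (c2 : 2 * W ^ 1 ≤ exp (θ * W))
    (c4 : 2 * W ^ 3 ≤ exp (κ / 2 * W)) (c5 : 55 * (12 * k) ^ 4 * W ^ 16 ≤ exp (2 * κ * W))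
    (c6 : 16 * (12 * k) ^ 2 * W ^ 22 ≤ exp (7 * κ * W)) :
    ∃ a b a₁ Q T : ℕ, (a : ℝ) ≤ W ∧ 3 * (2 * W + 3) < h - 1 ∧
      Par h (W ^ 2 / 16) (12 * k * W ^ 4) W (exp (W / (2 * k))) (exp (2 * W)) (exp (-(e * W)))
        a b a₁ Q T := by
  have k2 : (2 : ℝ) ≤ k := by exact_mod_cast hk
  have κ1 : κ ≤ 1 / 280 := by
    have : 1 / (2 * (k : ℝ)) ≤ 1 / 4 := one_div_le_one_div_of_le (by norm_num) (by linarith)
    linarith
  have θ0 : 0 < θ := by rw [hθ]; positivity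
  have θκ : 27 * θ ≤ κ := by rw [hθ]; nlinarith only [κ0, κ1]
  have θ3 : θ ≤ 1 / 3 := by linarith
  have LW : L + 1 ≤ W := hL ▸ add_one_le_exp L
  have W16 : 16 ≤ W := by linarith
  have W0 : 0 < W := by linarith
  have L0 : 0 < L := by linarith
  obtain ⟨x, hx⟩ : ∃ x, x = W / L := ⟨_, rfl⟩
  have xL : x * L = W := by rw [hx]; field_simp
  have x1 : 1 ≤ x := by rw [hx, le_div_iff₀ L0]; linarith
  have xW : 15 * x ≤ W := by nlinarith only [xL, x1, L15]
  obtain ⟨a, a1, a2⟩ : ∃ a : ℕ, 12 * x ≤ a ∧ (a : ℝ) ≤ 13 * x :=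
    ⟨⌈12 * x⌉₊, Nat.le_ceil _, by have := Nat.ceil_lt_add_one (a := 12 * x) (by linarith); linarith⟩
  obtain ⟨b, b1, b2⟩ : ∃ b : ℕ, κ * x / 8 ≤ b ∧ (b : ℝ) ≤ κ * x / 8 + 1 :=
    ⟨⌈κ * x / 8⌉₊, Nat.le_ceil _, (Nat.ceil_lt_add_one (by positivity)).le⟩
  obtain ⟨a₁, d1, d2⟩ : ∃ a₁ : ℕ, 15 * κ * x ≤ a₁ ∧ (a₁ : ℝ) ≤ 15 * κ * x + 1 :=
    ⟨⌈15 * κ * x⌉₊, Nat.le_ceil _, (Nat.ceil_lt_add_one (by positivity)).le⟩
  obtain ⟨Q, Q1, Q2⟩ : ∃ Q : ℕ, 3 * exp (27 * θ * W) ≤ Q ∧ (Q : ℝ) ≤ 3 * exp (27 * θ * W) + 1 :=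
    ⟨⌈3 * exp (27 * θ * W)⌉₊, Nat.le_ceil _, (Nat.ceil_lt_add_one (by positivity)).le⟩
  obtain ⟨T, T1, T2⟩ : ∃ T : ℕ, exp (κ * W / 4) ≤ T ∧ (T : ℝ) ≤ exp (κ * W / 4) + 1 :=
    ⟨⌈exp (κ * W / 4)⌉₊, Nat.le_ceil _, (Nat.ceil_lt_add_one (by positivity)).le⟩
  have κW : 0 < κ * W := by positivity
  have θW : 0 < θ * W := by positivity
  have κx : κ * x * L = κ * W := by rw [← xL]; ring
  have E1 : 1 ≤ exp (27 * θ * W) := one_le_exp (by positivity)
  have E2 : 1 ≤ exp (κ * W / 4) := one_le_exp (by positivity)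
  have aW : (a : ℝ) ≤ W := by linarith
  have e8 : 8 ≤ exp (θ * L) := by
    have : (8 : ℝ) ≤ 4 / θ := by rw [le_div_iff₀ θ0]; linarith
    exact this.trans (c1.trans (exp_le_exp.2 (by linarith [mul_pos θ0 L0])))
  have h8 : 8 * W ≤ h := by rw [hh]; nlinarith only [e8, W0]
  have h0 : 0 < h := by linarith
  have e80 : 80 ≤ exp (L / 3) := by
    have h1 : exp 5 ≤ exp (L / 3) := exp_le_exp.2 (by linarith)
    have h2 : (2.7 : ℝ) ^ 5 ≤ exp 5 := by
      have := Real.exp_one_gt_d9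
      rw [show (5 : ℝ) = (5 : ℕ) * 1 by norm_num, Real.exp_nat_mul]
      exact pow_le_pow_left₀ (by norm_num) (by linarith) 5
    norm_num at h2
    linarith
  have e3 : 80 * exp (θ * L) ≤ exp (2 * L / 3) :=
    mul_le_exp (exp_pos _).le e80 le_rfl (by nlinarith only [θ3, L0])
  have e4 : exp (2 * L / 3) = W * exp (-(L / 3)) := by
    rw [← hL, ← exp_add]; congr 1; ring
  have e5 : exp (-(L / 3)) ≤ 1 := exp_le_one_iff.2 (by linarith)
  have hR : 5 * h ≤ W ^ 2 / 16 := by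
    have : 80 * exp (θ * L) ≤ W := by nlinarith only [e3, e4, e5, W0]
    rw [hh]; nlinarith only [this, W0]
  have R0 : 0 < W ^ 2 / 16 - h := by linarith
  have ρ0 : 0 ≤ 4 * h / (W ^ 2 / 16 - h) := by positivity
  have ρ1 : 4 * h / (W ^ 2 / 16 - h) ≤ exp (-(L / 3)) := by
    rw [div_le_iff₀ R0]
    have h1 : 80 * h ≤ W ^ 2 * exp (-(L / 3)) := by
      rw [hh]
      have := mul_le_mul_of_nonneg_left (e3.trans_eq e4) W0.le
      linarith only [this]
    have h2 : exp (-(L / 3)) * (W ^ 2 / 20) ≤ exp (-(L / 3)) * (W ^ 2 / 16 - h) :=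
      mul_le_mul_of_nonneg_left (by linarith) (exp_pos _).le
    linarith only [h1, h2]
  have l0 : 0 ≤ lam a h := by unfold lam; positivity
  have l1 : lam a h ≤ exp (27 * θ * W) := by
    have h1 : lam a h = (a + 1) * ((4 / θ * exp (θ * L)) ^ a * ((θ * W) ^ a / a !)) := by
      unfold lam
      rw [show 4 * h = 4 / θ * exp (θ * L) * (θ * W) by rw [hh]; field_simp, mul_pow]; ring
    have h2 : (4 / θ * exp (θ * L)) ^ a ≤ exp (20 * θ * W) := by
      refine pow_le_exp (y := 3 / 2 * (θ * L)) (by positivity)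
        (mul_le_exp (exp_pos _).le c1 le_rfl (by linarith)) ?_
      have : (a : ℝ) * (θ * L) ≤ 13 * x * (θ * L) := mul_le_mul_of_nonneg_right a2 (by positivity)
      have h3 : x * (θ * L) = θ * W := by rw [← xL]; ring
      linarith only [this, h3, θW]
    rw [h1]
    refine mul_le_exp (u := θ * W) (v := 21 * θ * W) (by positivity) (by linarith)
      (mul_le_exp (by positivity) h2 (Real.pow_div_factorial_le_exp _ θW.le a) (by linarith))
      (by linarith)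
  have β0 : 0 ≤ bet (W ^ 2 / 16) b T := by unfold bet; positivity
  have WW : W ^ 2 = exp (2 * L) := by rw [← hL, ← Real.exp_nat_mul]; norm_num
  have β1 : bet (W ^ 2 / 16) b T ≤ exp (κ * W) := by
    have h1 : (W ^ 2 / 16) ^ b ≤ exp (κ * W / 4 + 2 * L) := by
      refine pow_le_exp (y := 2 * L) (by positivity)
        (by rw [← WW]; linarith only [sq_nonneg W]) ?_
      have := mul_le_mul_of_nonneg_right b2 L0.le
      linarith only [this, κx]
    rw [exp_add, ← WW] at h1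
    have h2 : (b : ℝ) ≤ W := by nlinarith only [b2, κ1, x1, xW, W16, κ0]
    have h3 : (T : ℝ) ≤ 2 * exp (κ * W / 4) := by linarith
    calc bet (W ^ 2 / 16) b T ≤ W * (2 * exp (κ * W / 4)) * (exp (κ * W / 4) * W ^ 2) := by
          unfold bet; gcongr
      _ = 2 * W ^ 3 * (exp (κ * W / 4) * exp (κ * W / 4)) := by ring
      _ ≤ _ := mul_le_exp (v := κ * W / 2) (by positivity) c4
          (mul_le_exp (exp_pos _).le le_rfl le_rfl (by linarith)) (by linarith)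
  have r1 : eR h (W ^ 2 / 16) (exp (2 * W)) a b T ≤ exp (-(4 * κ * W)) := by
    unfold eR
    refine mul_le_exp (u := κ * W + 2 * W) (v := -(4 * W)) (by positivity)
      (mul_le_exp (exp_pos _).le β1 le_rfl le_rfl) (pow_le_exp ρ0 ρ1 ?_)
      (by nlinarith only [κ1, W0])
    push_cast
    have := mul_le_mul_of_nonneg_right a1 L0.le
    linarith only [this, xL, L0]
  have r0 : 0 ≤ eR h (W ^ 2 / 16) (exp (2 * W)) a b T := by unfold eR; positivity
  have eW : 6 * κ * W ≤ e * W := mul_le_mul_of_nonneg_right κe W0.le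
  have δ1 : bet (W ^ 2 / 16) b T * exp (-(e * W)) ≤ exp (-(5 * κ * W)) :=
    mul_le_exp (exp_pos _).le β1 le_rfl (by linarith)
  have η1 : eta h (W ^ 2 / 16) (exp (2 * W)) (exp (-(e * W))) a b T ≤ 2 * exp (-(4 * κ * W)) := by
    have : bet (W ^ 2 / 16) b T * exp (-(e * W)) * lam a h ≤ exp (-(4 * κ * W)) :=
      mul_le_exp l0 δ1 l1 (by nlinarith only [θκ, W0])
    unfold eta; linarith
  have η0 : 0 ≤ eta h (W ^ 2 / 16) (exp (2 * W)) (exp (-(e * W))) a b T := by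
    unfold eta; positivity
  have sm : exp (-(4 * κ * W)) ≤ 1 / 16 := by
    have h1 : 16 ≤ exp (4 * κ * W) := by
      have : W ≤ W ^ 3 := le_self_pow₀ (by linarith) (by norm_num)
      exact le_trans (by linarith) (c4.trans (exp_le_exp.2 (by linarith)))
    rw [exp_neg, one_div]
    exact inv_anti₀ (by norm_num) h1
  refine ⟨a, b, a₁, Q, T, aW, by linarith, ?_, by linarith, hR, ?_, ?_, ?_, ?_⟩
  · have : (1 : ℝ) ≤ Q := by linarith
    exact_mod_cast this
  · have b0 : b ≠ 0 := by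
      rintro rfl
      have : 0 < κ * x / 8 := by positivity
      simp only [Nat.cast_zero] at b1
      linarith
    have h1 : (Q : ℝ) ≤ exp (28 * θ * W) := by
      have : 4 * exp (27 * θ * W) ≤ exp (28 * θ * W) :=
        mul_le_exp (u := θ * W) (exp_pos _).le (by linarith) le_rfl (by linarith)
      linarith
    have h2 : (Q : ℝ) ^ (a + 1) ≤ exp (b * (κ * W / 4)) := by
      refine pow_le_exp (Nat.cast_nonneg _) h1 ?_
      push_cast
      have h3 : ((a : ℝ) + 1) * (28 * θ * W) ≤ 14 * x * (28 * θ * W) :=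
        mul_le_mul_of_nonneg_right (by linarith) (by positivity)
      have h4 : κ * x / 8 * (κ * W / 4) ≤ b * (κ * W / 4) :=
        mul_le_mul_of_nonneg_right b1 (by positivity)
      have h5 : 14 * x * (28 * θ * W) = κ * x / 8 * (κ * W / 4) := by rw [hθ]; ring
      linarith
    have h3 : exp (b * (κ * W / 4)) < ((T : ℝ) + 1) ^ b := by
      rw [Real.exp_nat_mul]
      exact pow_lt_pow_left₀ (by linarith) (exp_pos _).le b0
    exact_mod_cast h2.trans_lt h3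
  · have h1 : lam a h / Q ≤ 1 / 3 := by
      rw [div_le_iff₀ (by linarith)]; linarith
    have h2 : exp (-(5 * κ * W)) ≤ exp (-(4 * κ * W)) := exp_le_exp.2 (by linarith)
    linarith
  · have h1 : bet (W ^ 2 / 16) b T * (4 * h / (W ^ 2 / 16 - h)) ^ a₁ ≤ exp (-(4 * κ * W)) := by
      refine mul_le_exp (v := -(5 * κ * W)) (by positivity) β1 (pow_le_exp ρ0 ρ1 ?_) (by linarith)
      have := mul_le_mul_of_nonneg_right d1 L0.le
      linarith only [this, κx]
    have h2 : bet (W ^ 2 / 16) b T ^ 2 ≤ exp (2 * κ * W) :=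
      pow_le_exp β0 β1 (by push_cast; linarith)
    have h3 : exp (2 * κ * W) * (exp (2 * κ * W) * exp (-(4 * κ * W))) = 1 := by
      rw [← exp_add, ← exp_add, ← exp_zero]; congr 1; ring
    have h4 : 0 < (12 * (k : ℝ)) ^ 4 * W ^ 16 * (exp (2 * κ * W) * exp (-(4 * κ * W))) := by
      positivity
    have h5 := mul_le_mul_of_nonneg_right c5
      (show 0 ≤ exp (2 * κ * W) * exp (-(4 * κ * W)) by positivity)
    calc _ ≤ 18 * (12 * k * W ^ 4) ^ 4 * exp (2 * κ * W) * (3 * exp (-(4 * κ * W))) := by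
          gcongr
          linarith
      _ = 54 * ((12 * (k : ℝ)) ^ 4 * W ^ 16 * (exp (2 * κ * W) * exp (-(4 * κ * W)))) := by ring
      _ < 1 := by linarith
  · have E3 : 1 ≤ exp (κ * W) := one_le_exp κW.le
    have h1 : eta h (W ^ 2 / 16) (exp (2 * W)) (exp (-(e * W))) a b T + bet (W ^ 2 / 16) b T ≤
        3 * exp (κ * W) := by linarith
    have h2 : (2 * W + 3) ^ (2 * (a₁ + b) + 3) ≤ exp (61 * κ * W + 14 * L) := by
      refine pow_le_exp (y := 2 * L) (by positivity)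
        (by rw [← WW]; nlinarith only [W16]) ?_
      push_cast
      have t1 := mul_le_mul_of_nonneg_right b2 L0.le
      have t2 := mul_le_mul_of_nonneg_right d2 L0.le
      linarith only [t1, t2, κx, κW]
    have W14 : exp (14 * L) = W ^ 14 := by rw [← hL, ← Real.exp_nat_mul]; norm_num
    rw [exp_add, W14] at h2
    have h3 : exp (κ * W) * exp (κ * W) * exp (61 * κ * W) = exp (63 * κ * W) := by
      rw [← exp_add, ← exp_add]; congr 1; ring
    have h4 : (1 : ℝ) ≤ (12 * k) ^ 2 * W ^ 22 :=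
      one_le_mul_of_one_le_of_one_le (one_le_pow₀ (by linarith)) (one_le_pow₀ (by linarith))
    have h5 : exp (κ * W) ≤ exp (63 * κ * W) := exp_le_exp.2 (by linarith)
    have h6 : 16 * (12 * k) ^ 2 * W ^ 22 * exp (63 * κ * W) ≤ exp (W / (2 * k)) := by
      refine mul_le_exp (exp_pos _).le c6 le_rfl ?_
      have := mul_le_mul_of_nonneg_right κk W0.le
      rw [show W / (2 * k) = 1 / (2 * k) * W by ring]
      linarith
    have h7 := mul_le_mul_of_nonneg_right h4 (exp_pos (63 * κ * W)).le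
    have h8 : 4 * (12 * k * W ^ 4) ^ 2 * bet (W ^ 2 / 16) b T *
        (eta h (W ^ 2 / 16) (exp (2 * W)) (exp (-(e * W))) a b T + bet (W ^ 2 / 16) b T) *
        (2 * W + 3) ^ (2 * (a₁ + b) + 3) ≤ 12 * ((12 * k) ^ 2 * W ^ 22 * exp (63 * κ * W)) :=
      calc _ ≤ 4 * (12 * k * W ^ 4) ^ 2 * exp (κ * W) * (3 * exp (κ * W)) *
            (exp (61 * κ * W) * W ^ 14) := by gcongr
        _ = _ := by rw [← h3]; ring
    have h9 := exp_pos (63 * κ * W)
    linarith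

end NumL

theorem num : NumS := by
  intro k e hk he
  have k2 : (2 : ℝ) ≤ k := by exact_mod_cast hk
  obtain ⟨κ, hκ⟩ : ∃ κ : ℝ, κ = min (e / 6) (1 / (140 * k)) := ⟨_, rfl⟩
  have κ0 : 0 < κ := by rw [hκ]; positivity
  have κe : 6 * κ ≤ e := by have := min_le_left (e / 6) (1 / (140 * (k : ℝ))); linarith
  have κk : 70 * κ ≤ 1 / (2 * k) := by
    have h1 := min_le_right (e / 6) (1 / (140 * (k : ℝ)))
    have h2 : 1 / (2 * (k : ℝ)) = 70 * (1 / (140 * k)) := by field_simp; norm_num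
    linarith
  have κ1 : κ ≤ 1 := by
    have : 1 / (2 * (k : ℝ)) ≤ 1 / 4 := one_div_le_one_div_of_le (by norm_num) (by linarith)
    linarith
  obtain ⟨θ, hθ⟩ : ∃ θ : ℝ, θ = κ ^ 2 / 12544 := ⟨_, rfl⟩
  have θ0 : 0 < θ := by rw [hθ]; positivity
  refine ⟨θ, θ0, by rw [hθ]; nlinarith, ?_⟩
  filter_upwards [eventually_gt_atTop 0, Real.tendsto_log_atTop.eventually_ge_atTop 15,
    Real.tendsto_log_atTop.eventually (ev_pow_le (4 / θ) 0 (half_pos θ0)), ev_pow_le 2 1 θ0,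
    ev_pow_le 2 3 (half_pos κ0), ev_pow_le (55 * (12 * k) ^ 4) 16 (b := 2 * κ) (by positivity),
    ev_pow_le (16 * (12 * k) ^ 2) 22 (b := 7 * κ) (by positivity)] with W W0 h1 h2 h3 h4 h5 h6
  refine NumL.core k e κ θ W (Real.log W) _ hk κ0 κe κk hθ (Real.exp_log W0) h1 ?_ ?_ h3 h4 h5 h6
  · rw [Real.rpow_add W0, Real.rpow_one, Real.rpow_def_of_pos W0, mul_comm θ]
  · rw [pow_zero, mul_one] at h2
    exact h2.trans_eq (by congr 1; ring)

end Pool.Agent.MP_ed4d7b_nt.K2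

end
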