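import Pool.Agent.MP_ed4d7b_nt.k2.Spec

/-! Summation over the windows for one exponent. -/

set_option autoImplicit false

namespace Pool.Agent.MP_ed4d7b_nt.K2

open Finset Filter
open scoped Real

namespace OneL

lemma lm_pos : 0 < lm := by
  unfold lm
  positivity

lemma le_mu (W : ℝ) (t : ℕ) : W ≤ √(W ^ 2 + lm * t) :=
  Real.le_sqrt_of_sq_le (le_add_of_nonneg_right (mul_nonneg lm_pos.le (Nat.cast_nonneg t)))

/-- one window, one parity class -/
lemma par (hW : WinS) (hF : FunS) {k : ℕ} (hk : 2 ≤ k) {c e θ : ℝ} (c₂ : ℝ) (hc : 0 < c)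
    (he : 0 < e)
    (hN : ∀ᶠ W : ℝ in atTop, ∃ a b a₁ Q T : ℕ, (a : ℝ) ≤ W ∧
      3 * (2 * W + 3) < W ^ (1 + θ) - 1 ∧
      Par (W ^ (1 + θ)) (W ^ 2 / 16) (12 * k * W ^ 4) W (Real.exp (W / (2 * k)))
        (Real.exp (2 * W)) (Real.exp (-(e * W))) a b a₁ Q T) :
    ∀ᶠ W : ℝ in atTop, ∀ S : Finset ℕ, (∀ t ∈ S, (t : ℝ) ≤ W ^ (1 + θ) ∧ ∃ m : ℤ,
      ‖fk c k (√(W ^ 2 + lm * t) : ℝ) + wk c c₂ k (√(W ^ 2 + lm * t) : ℝ) - m‖ ≤
        Real.exp (-(e * √(W ^ 2 + lm * t)))) → (#S : ℝ) ≤ W := by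
  filter_upwards [hN, hF c c₂ k hc hk] with W h1 h2 S hS
  obtain ⟨a, b, a₁, Q, T, ha, hr, hP⟩ := h1
  choose! m hm using fun t ht => (hS t ht).2
  have key : S.card ≤ a := by
    refine hW _ _ _ _ _ _ _ _ _ _ _ a b a₁ Q T S m (h2.2 _ hr hP.hR) hP fun t ht =>
      ⟨(hS t ht).1, ?_⟩
    have e1 := h2.1 t (Nat.cast_nonneg t)
    rw [Complex.ofReal_natCast] at e1
    simp only [e1]
    exact (hm t ht).trans (Real.exp_le_exp.mpr
      (neg_le_neg (mul_le_mul_of_nonneg_left (le_mu W t) he.le)))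
  exact le_trans (by exact_mod_cast key) ha

end OneL

open OneL in
theorem one (hW : WinS) (hN : NumS) (hF : FunS) (hA : AppS) : OneS := by
  classical
  intro k ε hk hε
  obtain ⟨c, c₁, e, hc, he, happ⟩ := hA k ε hk hε
  obtain ⟨θ, hθ, hθ2, hnum⟩ := hN k e hk he
  refine ⟨θ / 2, by positivity, fun d => ?_⟩
  obtain ⟨W₀, hW₀⟩ := eventually_atTop.mp
    ((OneL.par hW hF hk c₁ hc he hnum).and ((OneL.par hW hF hk (-c₁) hc he hnum).and (happ d)))
  obtain ⟨B, hB⟩ : ∃ B : ℕ → Prop, ∀ n, B n ↔ ∃ m : ℤ,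
      |(P n : ℝ) - (m : ℝ) ^ k| ≤ d * (P n : ℝ) ^ (1 - 1 / (k : ℝ) - ε) := ⟨_, fun _ => Iff.rfl⟩
  obtain ⟨C', hC'⟩ := telescope (η := (1 - θ) / 2) (C := 6) (by linarith) (by linarith)
    (fun X => (#{n ∈ range (X + 1) | B n} : ℝ))
    (fun X => by exact_mod_cast (card_filter_le _ _).trans (card_range _).le) (by
      filter_upwards [eventually_ge_atTop 1, tendsto_natCast_atTop_atTop.eventually_ge_atTop
        (W₀ ^ 2)] with X hX hX'
      have hX1 : (1 : ℝ) ≤ X := by exact_mod_cast hX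
      obtain ⟨H, hH⟩ : ∃ H, H = ⌊(X : ℝ) ^ (1 - (1 - θ) / 2 : ℝ) / 64⌋₊ := ⟨_, rfl⟩
      have e3 : (H : ℝ) ≤ (X : ℝ) ^ (1 - (1 - θ) / 2 : ℝ) / 64 :=
        hH ▸ Nat.floor_le (by positivity)
      have e5 : (X : ℝ) ^ (1 - (1 - θ) / 2 : ℝ) ≤ X :=
        Real.rpow_le_self_of_one_le hX1 (by linarith)
      have e6 : H ≤ X := by exact_mod_cast (by linarith : (H : ℝ) ≤ X)
      rw [← hH]
      have p1 : 9 ≤ π ^ 2 := by nlinarith [Real.pi_gt_three]
      have p2 : π ^ 2 ≤ 10 := by nlinarith [Real.pi_lt_d2, Real.pi_pos]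
      obtain ⟨W, hWd⟩ : ∃ W, W = √(2 * π ^ 2 / 3 * ((X - H : ℝ) - 1 / 24)) := ⟨_, rfl⟩
      have w0 : 0 ≤ W := hWd ▸ Real.sqrt_nonneg _
      have w1 : W ^ 2 = 2 * π ^ 2 / 3 * ((X - H : ℝ) - 1 / 24) :=
        hWd ▸ Real.sq_sqrt (mul_nonneg (by positivity) (by linarith))
      have w2 : (X : ℝ) ≤ W ^ 2 := by nlinarith
      have w3 : W ≤ 3 * √X := by
        refine le_of_sq_le_sq ?_ (by positivity)
        rw [mul_pow, Real.sq_sqrt (by linarith)]
        nlinarith [Nat.cast_nonneg (α := ℝ) H]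
      have w4 : W₀ ≤ W := le_of_sq_le_sq (hX'.trans w2) w0
      have w6 : (H : ℝ) ≤ W ^ (1 + θ) := by
        calc (H : ℝ) ≤ (X : ℝ) ^ (1 - (1 - θ) / 2 : ℝ) := by
              linarith [Nat.cast_nonneg (α := ℝ) H]
          _ ≤ (W ^ 2) ^ (1 - (1 - θ) / 2 : ℝ) := by
              gcongr
              linarith
          _ = _ := by
              rw [← Real.rpow_natCast, ← Real.rpow_mul w0]
              congr 1
              push_cast
              ring
      have pt : ∀ t ∈ range (H + 1), B (X - H + t) → (t : ℝ) ≤ W ^ (1 + θ) ∧ ∃ m : ℤ,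
          ‖fk c k (√(W ^ 2 + lm * t) : ℝ) +
            wk c ((-1) ^ (X - H + t) * c₁) k (√(W ^ 2 + lm * t) : ℝ) - m‖ ≤
            Real.exp (-(e * √(W ^ 2 + lm * t))) := fun t ht hb => by
        have t1 : (t : ℝ) ≤ H := by exact_mod_cast Nat.lt_succ_iff.mp (mem_range.mp ht)
        obtain ⟨m, hm⟩ := (hB _).mp hb
        refine ⟨t1.trans w6, |m|, (hW₀ _ (w4.trans (le_mu W t))).2.2 (X - H + t) ?_ m hm⟩
        rw [Real.sq_sqrt (add_nonneg (sq_nonneg W) (mul_nonneg lm_pos.le (Nat.cast_nonneg t))),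
          w1, Nat.cast_add, Nat.cast_sub e6, lm]
        ring
      have k1 := (hW₀ W w4).1 {t ∈ range (H + 1) | B (X - H + t) ∧ Even (X - H + t)}
        fun t ht => by
          obtain ⟨t1, t2, t3⟩ := mem_filter.mp ht
          have := pt t t1 t2
          rwa [t3.neg_one_pow, one_mul] at this
      have k2 := (hW₀ W w4).2.1 {t ∈ range (H + 1) | B (X - H + t) ∧ Odd (X - H + t)}
        fun t ht => by
          obtain ⟨t1, t2, t3⟩ := mem_filter.mp ht
          have := pt t t1 t2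
          rwa [t3.neg_one_pow, neg_one_mul] at this
      have hsub : {n ∈ range (X + 1) | B n} ⊆ {n ∈ range (X - H + 1) | B n} ∪
          image (fun t => X - H + t) ({t ∈ range (H + 1) | B (X - H + t) ∧ Even (X - H + t)} ∪
            {t ∈ range (H + 1) | B (X - H + t) ∧ Odd (X - H + t)}) := fun n hn => by
        simp only [mem_union, mem_filter, mem_range, mem_image] at hn ⊢
        rcases le_or_gt n (X - H) with h | h
        · exact Or.inl ⟨by omega, hn.2⟩
        · have h' : X - H + (n - (X - H)) = n := by omega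
          refine Or.inr ⟨n - (X - H), ?_, h'⟩
          rw [h']
          rcases Nat.even_or_odd n with h2 | h2
          · exact Or.inl ⟨by omega, hn.2, h2⟩
          · exact Or.inr ⟨by omega, hn.2, h2⟩
      have e7 : (#{n ∈ range (X + 1) | B n} : ℝ) ≤ #{n ∈ range (X - H + 1) | B n} +
          (#{t ∈ range (H + 1) | B (X - H + t) ∧ Even (X - H + t)} +
            #{t ∈ range (H + 1) | B (X - H + t) ∧ Odd (X - H + t)}) := by
        exact_mod_cast (card_le_card hsub).trans ((card_union_le _ _).trans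
          (Nat.add_le_add_left (card_image_le.trans (card_union_le _ _)) _))
      linarith)
  refine ⟨C', fun X hX => ?_⟩
  have := hC' X hX
  rw [show 1 / 2 + (1 - θ) / 2 = 1 - θ / 2 by ring] at this
  refine le_trans (le_of_eq ?_) this
  exact congrArg Nat.cast (congrArg card (filter_congr fun n _ => (hB n).symm))

end Pool.Agent.MP_ed4d7b_nt.K2
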