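import Mathlib
import Pool.Agent.MP_ed4d7b_nt.Final

/-! All exponents `k ≥ 2`: definitions and statements of the rows. -/

set_option autoImplicit false

noncomputable section

namespace Pool.Agent.MP_ed4d7b_nt.K2

open Finset Filter Metric Polynomial
open scoped Real Nat

/-- integer values at the natural numbers -/
def IV (Q : ℂ[X]) : Prop := ∀ n : ℕ, ∃ z : ℤ, Q.eval (n : ℂ) = z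

def lam (a : ℕ) (h : ℝ) : ℝ := (a + 1) * (4 * h) ^ a / a !

/-- remainder of interpolation -/
def RemS : Prop := ∀ (h R R' M : ℝ) (S : Finset ℂ) (G : ℂ → ℂ), 0 < h → h < R → R < R' →
  DifferentiableOn ℂ G (ball 0 R') → (∀ z ∈ sphere (0 : ℂ) R, ‖G z‖ ≤ M) → (∀ x ∈ S, ‖x‖ ≤ h) →
  ∃ I : ℂ[X], I.degree < (S.card : ℕ) ∧ (∀ x ∈ S, I.eval x = G x) ∧
    ∀ z : ℂ, ‖z‖ ≤ h → ‖G z - I.eval z‖ ≤ M * (4 * h / (R - h)) ^ S.card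

/-- a polynomial that is small at natural numbers -/
def LagS : Prop := ∀ (a : ℕ) (h δ : ℝ) (S : Finset ℕ) (Q : ℂ[X]), S.card = a + 1 →
  Q.natDegree ≤ a → (∀ n ∈ S, (n : ℝ) ≤ h ∧ ‖Q.eval (n : ℂ)‖ ≤ δ) →
  ∀ z : ℂ, ‖z‖ ≤ h → ‖Q.eval z‖ ≤ δ * lam a h

/-- the auxiliary pair -/
def ConsS : Prop := ∀ (a b Q T : ℕ) (F : ℕ → ℝ), 1 ≤ Q → Q ^ (a + 1) < (T + 1) ^ b →
  ∃ A B : ℂ[X], IV A ∧ IV B ∧ A.natDegree ≤ a ∧ B.natDegree ≤ b ∧ 1 ≤ ‖B.leadingCoeff‖ ∧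
    (∀ (R : ℝ) (z : ℂ), 1 ≤ R → ‖z‖ ≤ R → ‖B.eval z‖ ≤ b * T * R ^ b) ∧
    (A ≠ 0 → 1 ≤ (A.natDegree ! : ℝ) * ‖A.leadingCoeff‖) ∧
    ∀ t : ℕ, t ≤ a → ‖A.eval (t : ℂ) + B.eval (t : ℂ) * (F t : ℂ)‖ ≤ 1 / Q

/-- a first order system with polynomial coefficients -/
structure Ode (r U : ℝ) (ρ p q τ : ℂ[X]) (y v : ℂ → ℂ) : Prop where
  dρ : ρ.natDegree ≤ 2
  dp : p.natDegree ≤ 1
  dq : q.natDegree ≤ 1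
  dτ : τ.natDegree = 1
  lτ : 1 ≤ ‖τ.leadingCoeff‖
  one : 1 ≤ U
  bd : ∀ z ∈ ball (0 : ℂ) r,
    ‖ρ.eval z‖ ≤ U ∧ ‖p.eval z‖ ≤ U ∧ ‖q.eval z‖ ≤ U ∧ ‖τ.eval z‖ ≤ U
  eq : ∀ z ∈ ball (0 : ℂ) r, ∃ y' v' : ℂ, HasDerivAt y y' z ∧ HasDerivAt v v' z ∧
    ρ.eval z * y' = p.eval z * y z + τ.eval z * v z ∧
    ρ.eval z * v' = τ.eval z ^ 2 * y z + q.eval z * v z

/-- elimination of second order -/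
def El1S : Prop := ∀ (r U : ℝ) (ρ p q τ : ℂ[X]) (y v : ℂ → ℂ), Ode r U ρ p q τ y v →
  ∀ (A B : ℂ[X]) (β η : ℝ), 4 ≤ r → (∀ z ∈ ball (0 : ℂ) r, ‖B.eval z‖ ≤ β) →
  (∀ z ∈ ball (0 : ℂ) r, ‖A.eval z + B.eval z * y z‖ ≤ η) →
  ‖A.leadingCoeff‖ * ‖B.leadingCoeff‖ ^ 2 * (r - 3) ^ A.natDegree ≤ 18 * U ^ 4 * β ^ 2 * η

/-- the second function is the first one times the square root of `τ` -/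
structure Root (r U W l Y : ℝ) (τ : ℂ[X]) (y v : ℂ → ℂ) : Prop where
  W4 : 4 ≤ W
  l1 : 1 ≤ l
  l9 : l ≤ 9
  eq : τ = C (l : ℂ) * X + C ((W : ℂ) ^ 2)
  rad : 3 * (2 * W + 3) < r - 1
  WU : W + 3 ≤ U
  sph : ∀ Z ∈ sphere (W : ℂ) 3,
    v ((Z ^ 2 - (W : ℂ) ^ 2) / l) = Z * y ((Z ^ 2 - (W : ℂ) ^ 2) / l) ∧
      Y ≤ ‖y ((Z ^ 2 - (W : ℂ) ^ 2) / l)‖

/-- elimination for small degrees -/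
def El2S : Prop := ∀ (r U W l Y : ℝ) (ρ p q τ : ℂ[X]) (y v : ℂ → ℂ), Ode r U ρ p q τ y v →
  Root r U W l Y τ y v → ∀ (A B : ℂ[X]) (β η : ℝ) (D : ℕ), A.natDegree + B.natDegree ≤ D →
  1 ≤ ‖B.leadingCoeff‖ → (∀ z ∈ ball (0 : ℂ) r, ‖B.eval z‖ ≤ β) →
  (∀ z ∈ ball (0 : ℂ) r, ‖A.eval z + B.eval z * y z‖ ≤ η) →
  Y ≤ η + 4 * U ^ 2 * β * η * (2 * W + 3) ^ (2 * D + 3)

def bet (R : ℝ) (b T : ℕ) : ℝ := b * T * R ^ b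

def eR (h R Y₂ : ℝ) (a b T : ℕ) : ℝ := bet R b T * Y₂ * (4 * h / (R - h)) ^ (a + 1)

def eta (h R Y₂ δ : ℝ) (a b T : ℕ) : ℝ := bet R b T * δ * lam a h + eR h R Y₂ a b T

/-- the inequalities between the parameters -/
structure Par (h R U W Y Y₂ δ : ℝ) (a b a₁ Q T : ℕ) : Prop where
  q1 : 1 ≤ Q
  ah : (a : ℝ) + 4 ≤ h
  hR : 5 * h ≤ R
  i1 : Q ^ (a + 1) < (T + 1) ^ b
  i2 : lam a h / Q + eR h R Y₂ a b T + bet R b T * δ < 1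
  i3 : 18 * U ^ 4 * bet R b T ^ 2 *
    (eta h R Y₂ δ a b T + bet R b T * (4 * h / (R - h)) ^ a₁) < 1
  i4 : eta h R Y₂ δ a b T + bet R b T + 4 * U ^ 2 * bet R b T *
    (eta h R Y₂ δ a b T + bet R b T) * (2 * W + 3) ^ (2 * (a₁ + b) + 3) < Y

/-- the functions of one window -/
structure Fun (h R R' U W l Y Y₂ : ℝ) (y w : ℂ → ℂ) : Prop where
  ode : ∃ ρ p q τ v, Ode h U ρ p q τ y v ∧ Root h U W l Y τ y v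
  lt : R < R'
  dy : DifferentiableOn ℂ y (ball 0 R')
  dw : DifferentiableOn ℂ w (ball 0 R')
  bd : ∀ z : ℂ, ‖z‖ ≤ R → ‖y z + w z‖ ≤ Y₂ ∧ ‖w z‖ ≤ 1
  re : ∀ t : ℕ, ∃ r : ℝ, y t + w t = r

/-- few points of a window are close to the curve -/
def WinS : Prop := ∀ (h R R' U W l Y Y₂ δ : ℝ) (y w : ℂ → ℂ) (a b a₁ Q T : ℕ) (S : Finset ℕ)
  (m : ℕ → ℤ), Fun h R R' U W l Y Y₂ y w → Par h R U W Y Y₂ δ a b a₁ Q T →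
  (∀ n ∈ S, (n : ℝ) ≤ h ∧ ‖y n + w n - m n‖ ≤ δ) → S.card ≤ a

def NumS : Prop := ∀ (k : ℕ) (e : ℝ), 2 ≤ k → 0 < e → ∃ θ : ℝ, 0 < θ ∧ θ ≤ 1 / 2 ∧
  ∀ᶠ W : ℝ in atTop, ∃ a b a₁ Q T : ℕ, (a : ℝ) ≤ W ∧ 3 * (2 * W + 3) < W ^ (1 + θ) - 1 ∧
    Par (W ^ (1 + θ)) (W ^ 2 / 16) (12 * k * W ^ 4) W (Real.exp (W / (2 * k)))
      (Real.exp (2 * W)) (Real.exp (-(e * W))) a b a₁ Q T

def lm : ℝ := 2 * π ^ 2 / 3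

def mu (W : ℝ) (z : ℂ) : ℂ := Complex.exp (Complex.log ((W : ℂ) ^ 2 + lm * z) / 2)

/-- the contribution of the second term, needed for squares only -/
def wk (c c₁ : ℝ) (k : ℕ) (Z : ℂ) : ℂ :=
  if k = 2 then c₁ * (Z - 2) / Z ^ 3 * Complex.exp (Z / 2) / (2 * fk c 2 Z) else 0

def FunS : Prop := ∀ (c c₁ : ℝ) (k : ℕ), 0 < c → 2 ≤ k → ∀ᶠ W : ℝ in atTop,
  (∀ t : ℝ, 0 ≤ t → mu W t = (√(W ^ 2 + lm * t) : ℝ)) ∧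
  ∀ h : ℝ, 3 * (2 * W + 3) < h - 1 → 5 * h ≤ W ^ 2 / 16 →
    Fun h (W ^ 2 / 16) (W ^ 2 / 14) (12 * k * W ^ 4) W lm (Real.exp (W / (2 * k)))
      (Real.exp (2 * W)) (fun z => fk c k (mu W z)) fun z => wk c c₁ k (mu W z)

/-- the formula of Hardy and Ramanujan with two terms -/
def HR2S : Prop := ∃ c₀ c₁ K μ₀ : ℝ, 0 < c₀ ∧ 0 < K ∧ ∀ (n : ℕ) (μ : ℝ), μ₀ ≤ μ →
  μ ^ 2 = 2 * π ^ 2 / 3 * (n - 1 / 24) →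
  |(P n : ℝ) - c₀ * (μ - 1) / μ ^ 3 * Real.exp μ -
    (-1) ^ n * c₁ * (μ - 2) / μ ^ 3 * Real.exp (μ / 2)| ≤ K * Real.exp (0.495 * μ)

def AppS : Prop := ∀ (k : ℕ) (ε : ℝ), 2 ≤ k → 0 < ε → ∃ c c₁ e : ℝ, 0 < c ∧ 0 < e ∧ ∀ d : ℝ,
  ∀ᶠ μ : ℝ in atTop, ∀ n : ℕ, μ ^ 2 = 2 * π ^ 2 / 3 * (n - 1 / 24) → ∀ m : ℤ,
    |(P n : ℝ) - (m : ℝ) ^ k| ≤ d * (P n : ℝ) ^ (1 - 1 / (k : ℝ) - ε) →
    ‖fk c k μ + wk c ((-1) ^ n * c₁) k μ - ((|m| : ℤ) : ℂ)‖ ≤ Real.exp (-(e * μ))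

open Classical in
/-- one exponent -/
def OneS : Prop := ∀ (k : ℕ) (ε : ℝ), 2 ≤ k → 0 < ε → ∃ η : ℝ, 0 < η ∧ ∀ d : ℝ, ∃ C : ℝ,
  ∀ X : ℕ, 1 ≤ X → (#{n ∈ range (X + 1) | ∃ m : ℤ,
    |(P n : ℝ) - (m : ℝ) ^ k| ≤ d * (P n : ℝ) ^ (1 - 1 / (k : ℝ) - ε)} : ℝ) ≤ C * (X : ℝ) ^ (1 - η)

open Classical in
/-- all exponents -/
def MainS : Prop := ∀ ε : ℝ, 0 < ε → ∃ η : ℝ, 0 < η ∧ ∀ d : ℝ, ∃ C : ℝ,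
  ∀ X : ℕ, 1 ≤ X → (#{n ∈ range (X + 1) | ∃ k : ℕ, 2 ≤ k ∧ ∃ m : ℤ,
    |(P n : ℝ) - (m : ℝ) ^ k| ≤ d * (P n : ℝ) ^ (1 - 1 / (k : ℝ) - ε)} : ℝ) ≤ C * (X : ℝ) ^ (1 - η)

end Pool.Agent.MP_ed4d7b_nt.K2

end
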