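import Mathlib
import Pool.Agent.MP_ed4d7b_nt.k2.Spec

/-! The remainder of interpolation. -/

set_option autoImplicit false

noncomputable section

namespace Pool.Agent.MP_ed4d7b_nt.K2

open Finset Metric Polynomial

namespace RemL

lemma aux {h R R' : ℝ} (hh : 0 < h) (hR : h < R) (hR' : R < R') (S : Finset ℂ) :
    ∀ (G : ℂ → ℂ) (M : ℝ), DifferentiableOn ℂ G (ball 0 R') →
      (∀ z ∈ sphere (0 : ℂ) R, ‖G z‖ ≤ M) → (∀ x ∈ S, ‖x‖ ≤ h) →
      ∃ I : ℂ[X], I.degree < (S.card : ℕ) ∧ (∀ x ∈ S, I.eval x = G x) ∧
        ∀ z : ℂ, ‖z‖ ≤ h → ‖G z - I.eval z‖ ≤ M * (4 * h / (R - h)) ^ S.card := by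
  classical
  induction S using Finset.induction_on with
  | empty =>
    intro G M hG hM _
    refine ⟨0, by simp, by simp, fun z hz => ?_⟩
    have := max_principle (hh.trans hR) hR' hG hM
      (z := z) (mem_closedBall_zero_iff.mpr (hz.trans hR.le))
    simpa using this
  | insert x S hx ih =>
    intro G M hG hM h1
    have hxh := h1 x (mem_insert_self _ _)
    have hRh : 0 < R - h := by linarith
    have hGx := max_principle (hh.trans hR) hR' hG hM
      (z := x) (mem_closedBall_zero_iff.mpr (hxh.trans hR.le))
    have hd : ∀ y, y ≠ x → ‖dslope G x y‖ = ‖G y - G x‖ / ‖y - x‖ := fun y hy => by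
      rw [dslope_of_ne _ hy, slope_def_field, norm_div]
    obtain ⟨I, hI1, hI2, hI3⟩ := ih (dslope G x) (2 * M / (R - h))
      ((Complex.differentiableOn_dslope (isOpen_ball.mem_nhds
        (mem_ball_zero_iff.mpr (by linarith)))).mpr hG)
      (fun y hy => by
        have e1 : R - h ≤ ‖y - x‖ := by
          have := norm_sub_norm_le y x
          rw [mem_sphere_zero_iff_norm.mp hy] at this
          linarith
        have e2 : y ≠ x := fun e => by
          rw [e, sub_self, norm_zero] at e1
          linarith
        have e3 := norm_sub_le (G y) (G x)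
        rw [hd y e2]
        exact div_le_div₀ (by linarith [norm_nonneg (G x)]) (by linarith [hM y hy]) hRh e1)
      (fun y hy => h1 y (mem_insert_of_mem hy))
    have e1 : ∀ z, G z = G x + (z - x) * dslope G x z := fun z => by
      rw [← smul_eq_mul, sub_smul_dslope]
      ring
    refine ⟨C (G x) + (X - C x) * I, ?_, ?_, fun z hz => ?_⟩
    · rw [card_insert_of_notMem hx]
      refine (degree_add_le _ _).trans_lt (max_lt ?_ ?_)
      · exact degree_C_le.trans_lt (by exact_mod_cast Nat.succ_pos _)
      · rw [degree_mul, degree_X_sub_C, Nat.cast_add, Nat.cast_one, add_comm]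
        exact WithBot.add_lt_add_right (by simp) hI1
    · intro y hy
      simp only [eval_add, eval_mul, eval_sub, eval_C, eval_X]
      rcases mem_insert.mp hy with rfl | hy
      · simp
      · rw [hI2 y hy, ← e1]
    · have e2 : ‖z - x‖ ≤ 2 * h := by
        have := norm_sub_le z x
        linarith
      have e3 : G z - (C (G x) + (X - C x) * I).eval z =
          (z - x) * (dslope G x z - I.eval z) := by
        simp only [eval_add, eval_mul, eval_sub, eval_C, eval_X]
        rw [e1 z]
        ring
      rw [e3, norm_mul, card_insert_of_notMem hx]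
      calc _ ≤ 2 * h * (2 * M / (R - h) * (4 * h / (R - h)) ^ #S) :=
            mul_le_mul e2 (hI3 z hz) (norm_nonneg _) (by positivity)
        _ = _ := by
            rw [pow_succ]
            field_simp
            ring

end RemL

theorem rem : RemS := fun _ _ _ M S G hh hR hR' hG hM hS => RemL.aux hh hR hR' S G M hG hM hS

end Pool.Agent.MP_ed4d7b_nt.K2

end
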