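import Pool.Agent.MP_ed4d7b_nt.k2.Spec

/-! Few points of a window are close to the curve. -/

set_option autoImplicit false

noncomputable section

namespace Pool.Agent.MP_ed4d7b_nt.K2

open Finset Filter Metric Polynomial
open scoped Real Nat

namespace WinL

lemma card_cast (S : Finset ℕ) : (S.image (Nat.cast : ℕ → ℂ)).card = S.card :=
  card_image_of_injective _ Nat.cast_injective

lemma ext (hR : RemS) (hL : LagS) {h R R' M δ : ℝ} {G : ℂ → ℂ} {a : ℕ} {A : ℂ[X]} {S : Finset ℕ}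
    (h0 : 0 < h) (h1 : h < R) (h2 : R < R') (hG : DifferentiableOn ℂ G (ball 0 R'))
    (hM : ∀ z ∈ sphere (0 : ℂ) R, ‖G z‖ ≤ M) (hS : S.card = a + 1) (hA : A.natDegree ≤ a)
    (hn : ∀ n ∈ S, (n : ℝ) ≤ h ∧ ‖A.eval (n : ℂ) + G n‖ ≤ δ) (z : ℂ) (hz : ‖z‖ ≤ h) :
    ‖A.eval z + G z‖ ≤ δ * lam a h + M * (4 * h / (R - h)) ^ (a + 1) := by
  obtain ⟨I, d, e, b⟩ := hR h R R' M (S.image Nat.cast) G h0 h1 h2 hG hM fun x hx => by
    obtain ⟨n, hn', rfl⟩ := mem_image.1 hx
    simpa using (hn n hn').1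
  rw [card_cast, hS] at d b
  have dI : I.natDegree ≤ a := by
    rcases eq_or_ne I 0 with rfl | hI
    · simp
    · exact Nat.lt_succ_iff.1 ((natDegree_lt_iff_degree_lt hI).2 d)
  have k := hL a h δ S (A + I) hS ((natDegree_add_le _ _).trans (max_le hA dI)) (fun n hn' =>
    ⟨(hn n hn').1, by rw [eval_add, e _ (mem_image_of_mem _ hn')]; exact (hn n hn').2⟩) z hz
  have e2 : A.eval z + G z = (A + I).eval z + (G z - I.eval z) := by rw [eval_add]; ring
  rw [e2]
  exact (norm_add_le _ _).trans (add_le_add k (b z hz))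

end WinL

open WinL in
theorem win (hR : RemS) (hL : LagS) (hC : ConsS) (h1 : El1S) (h2 : El2S) : WinS := by
  intro h R R' U W l Y Y₂ δ y w a b a₁ Q T S m hF hP hS
  by_contra hcon
  obtain ⟨S', hS', hc⟩ := exists_subset_card_eq (s := S) (n := a + 1) (by omega)
  obtain ⟨ρ, p, q, τ, v, hO, hRt⟩ := hF.ode
  choose F hFr using hF.re
  obtain ⟨A, B, iA, iB, dA, dB, lB, bB, lA, hAB⟩ := hC a b Q T F hP.q1 hP.i1
  have ha0 : (0 : ℝ) ≤ a := Nat.cast_nonneg a
  have h4 : 4 ≤ h := by linarith [hP.ah]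
  have h0 : 0 < h := by linarith
  have hhR : h < R := by linarith [hP.hR]
  have bB' : ∀ z : ℂ, ‖z‖ ≤ R → ‖B.eval z‖ ≤ bet R b T := fun z hz => bB R z (by linarith) hz
  have hβ : 0 ≤ bet R b T := (norm_nonneg _).trans (bB' 0 (by simp; linarith))
  have hG : DifferentiableOn ℂ (fun z => B.eval z * (y z + w z)) (ball 0 R') :=
    B.differentiable.differentiableOn.mul (hF.dy.add hF.dw)
  have hM : ∀ z ∈ sphere (0 : ℂ) R, ‖B.eval z * (y z + w z)‖ ≤ bet R b T * Y₂ := fun z hz => by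
    have := (mem_sphere_zero_iff_norm.1 hz).le
    rw [norm_mul]
    exact mul_le_mul (bB' z this) (hF.bd z this).1 (norm_nonneg _) hβ
  have k1 := ext hR hL (S := range (a + 1)) (δ := 1 / Q) h0 hhR hF.lt hG hM (card_range _) dA
    fun t ht => by
      have ht' : t ≤ a := Nat.lt_succ_iff.1 (mem_range.1 ht)
      have : (t : ℝ) ≤ a := by exact_mod_cast ht'
      exact ⟨by linarith [hP.ah], by rw [hFr t]; exact hAB t ht'⟩
  have k2 := ext hR hL (δ := bet R b T * δ) h0 hhR hF.lt hG hM hc dA fun n hn => by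
    obtain ⟨e1, e2⟩ := hS n (hS' hn)
    have hn' : ‖(n : ℂ)‖ ≤ h := by simpa using e1
    obtain ⟨zA, hA⟩ := iA n
    obtain ⟨zB, hB⟩ := iB n
    have e3 : ‖B.eval (n : ℂ) * (y n + w n - m n)‖ ≤ bet R b T * δ := by
      rw [norm_mul]
      exact mul_le_mul (bB' _ (hn'.trans hhR.le)) e2 (norm_nonneg _) hβ
    have e4 : ((zA + zB * m n : ℤ) : ℂ) = A.eval (n : ℂ) + B.eval (n : ℂ) * (y n + w n) -
        B.eval (n : ℂ) * (y n + w n - m n) := by
      rw [hA, hB]
      push_cast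
      ring
    have e5 : ‖((zA + zB * m n : ℤ) : ℂ)‖ < 1 := by
      rw [e4]
      refine ((norm_sub_le _ _).trans (add_le_add (k1 _ hn') e3)).trans_lt ?_
      have := hP.i2
      rw [eR] at this
      rw [one_div_mul_eq_div]
      exact this
    rw [Complex.norm_intCast] at e5
    have e6 : zA + zB * m n = 0 := Int.abs_lt_one_iff.1 (by exact_mod_cast e5)
    rw [e6, Int.cast_zero, eq_comm, sub_eq_zero] at e4
    exact ⟨e1, e4 ▸ e3⟩
  change ∀ z : ℂ, ‖z‖ ≤ h → _ ≤ eta h R Y₂ δ a b T at k2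
  have hb : ∀ z ∈ ball (0 : ℂ) h, ‖z‖ ≤ h := fun z hz => (mem_ball_zero_iff.1 hz).le
  have bw : ∀ z : ℂ, ‖z‖ ≤ R → ‖B.eval z * w z‖ ≤ bet R b T := fun z hz => by
    rw [norm_mul]
    exact (mul_le_of_le_one_right (norm_nonneg _) (hF.bd z hz).2).trans (bB' z hz)
  have bB2 : ∀ z ∈ ball (0 : ℂ) h, ‖B.eval z‖ ≤ bet R b T := fun z hz =>
    bB' z ((hb z hz).trans hhR.le)
  rcases le_or_gt A.natDegree a₁ with hd | hd
  · refine absurd (h2 h U W l Y ρ p q τ y v hO hRt A B (bet R b T)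
      (eta h R Y₂ δ a b T + bet R b T) (a₁ + b) (add_le_add hd dB) lB bB2 fun z hz => ?_)
      (not_le.2 hP.i4)
    have e : A.eval z + B.eval z * y z =
        A.eval z + B.eval z * (y z + w z) - B.eval z * w z := by ring
    rw [e]
    exact (norm_sub_le _ _).trans
      (add_le_add (k2 z (hb z hz)) (bw z ((hb z hz).trans hhR.le)))
  · have hA0 : A ≠ 0 := fun e => by simp [e] at hd
    obtain ⟨I, d, -, bI⟩ := hR h R R' (bet R b T) ((range a₁).image Nat.cast)
      (fun z => B.eval z * w z) h0 hhR hF.lt (B.differentiable.differentiableOn.mul hF.dw)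
      (fun z hz => bw z (mem_sphere_zero_iff_norm.1 hz).le) fun x hx => by
        obtain ⟨n, hn, rfl⟩ := mem_image.1 hx
        have : (n : ℝ) ≤ a := by exact_mod_cast ((mem_range.1 hn).trans hd).le.trans dA
        simp only [Complex.norm_natCast]
        linarith [hP.ah]
    rw [card_cast, card_range] at d bI
    have dI : I.degree < A.degree := by
      rw [degree_eq_natDegree hA0]
      exact d.trans (by exact_mod_cast hd)
    have k3 := (h1 h U ρ p q τ y v hO (A + I) B (bet R b T)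
      (eta h R Y₂ δ a b T + bet R b T * (4 * h / (R - h)) ^ a₁) h4 bB2 fun z hz => by
        have e : (A + I).eval z + B.eval z * y z =
            A.eval z + B.eval z * (y z + w z) - (B.eval z * w z - I.eval z) := by
          rw [eval_add]
          ring
        rw [e]
        exact (norm_sub_le _ _).trans (add_le_add (k2 z (hb z hz)) (bI z (hb z hz)))).trans_lt hP.i3
    rw [leadingCoeff_add_of_degree_lt' dI, natDegree_add_eq_left_of_degree_lt dI] at k3
    have e1 : (A.natDegree ! : ℝ) ≤ (h - 3) ^ A.natDegree := by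
      have e2 : (A.natDegree : ℝ) ≤ a := by exact_mod_cast dA
      calc (A.natDegree ! : ℝ) ≤ (A.natDegree : ℝ) ^ A.natDegree := by
            exact_mod_cast Nat.factorial_le_pow _
        _ ≤ _ := pow_le_pow_left₀ (Nat.cast_nonneg _) (by linarith [hP.ah]) _
    refine absurd k3 (not_lt.2 ?_)
    calc (1 : ℝ) ≤ A.natDegree ! * ‖A.leadingCoeff‖ := lA hA0
      _ = ‖A.leadingCoeff‖ * 1 * A.natDegree ! := by ring
      _ ≤ _ := by
          gcongr
          exact one_le_pow₀ lB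

end Pool.Agent.MP_ed4d7b_nt.K2

end
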