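import Pool.Agent.MP_ed4d7b_nt.HR2
import Pool.Agent.MP_ed4d7b_nt.k2.Rem
import Pool.Agent.MP_ed4d7b_nt.k2.Lag
import Pool.Agent.MP_ed4d7b_nt.k2.Cons
import Pool.Agent.MP_ed4d7b_nt.k2.El1
import Pool.Agent.MP_ed4d7b_nt.k2.El2
import Pool.Agent.MP_ed4d7b_nt.k2.Win
import Pool.Agent.MP_ed4d7b_nt.k2.Num
import Pool.Agent.MP_ed4d7b_nt.k2.Fun
import Pool.Agent.MP_ed4d7b_nt.k2.App
import Pool.Agent.MP_ed4d7b_nt.k2.One
import Pool.Agent.MP_ed4d7b_nt.k2.Main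

/-! All exponents: the rows put together. -/

set_option autoImplicit false

namespace Pool.Agent.MP_ed4d7b_nt.K2

theorem mainAll : MainS := mainK (one (win rem lag cons el1 el2) num fun' (app hr2))

end Pool.Agent.MP_ed4d7b_nt.K2
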