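import Mathlib
import Pool.Agent.MP_ed4d7b_nt.k2.Spec

/-! From one exponent to all exponents. -/

set_option autoImplicit false

noncomputable section

namespace Pool.Agent.MP_ed4d7b_nt.K2

open Finset Filter
open scoped Real

namespace MainL

open Classical in
/-- the statement for all exponents from `K` on -/
def Tail (ε : ℝ) (K : ℕ) : Prop := ∃ η : ℝ, 0 < η ∧ ∀ d : ℝ, ∃ C : ℝ,
  ∀ X : ℕ, 1 ≤ X → (#{n ∈ range (X + 1) | ∃ k : ℕ, K ≤ k ∧ ∃ m : ℤ,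
    |(P n : ℝ) - (m : ℝ) ^ k| ≤ d * (P n : ℝ) ^ (1 - 1 / (k : ℝ) - ε)} : ℝ) ≤ C * (X : ℝ) ^ (1 - η)

lemma one_le_P (n : ℕ) : (1 : ℝ) ≤ P n := by
  have : 0 < P n := Fintype.card_pos
  exact_mod_cast this

lemma up {C η η' : ℝ} (hη : η' ≤ η) {X : ℕ} (hX : 1 ≤ X) :
    C * (X : ℝ) ^ (1 - η) ≤ |C| * (X : ℝ) ^ (1 - η') := by
  have hX1 : (1 : ℝ) ≤ X := by exact_mod_cast hX
  exact mul_le_mul (le_abs_self _) (Real.rpow_le_rpow_of_exponent_le hX1 (by linarith))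
    (by positivity) (abs_nonneg _)

open Classical in
lemma big {ε : ℝ} (hε : 0 < ε) : ∃ K : ℕ, Tail ε (2 + K) := by
  obtain ⟨K, hK⟩ := final (ε := 1 / 4) (θ := 1 - ε) (by norm_num) (by linarith)
  refine ⟨K, 1 / 4, by norm_num, fun d => ?_⟩
  obtain ⟨C, hC⟩ := hK |d|
  refine ⟨C, fun X hX => ?_⟩
  have e : (1 : ℝ) - 1 / 4 = 1 / 2 + 1 / 4 := by norm_num
  rw [e]
  refine le_trans ?_ (hC X hX)
  refine Nat.cast_le.mpr (card_le_card fun n hn => ?_)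
  obtain ⟨h1, k, hk, m, hm⟩ := mem_filter.mp hn
  refine mem_filter.mpr ⟨h1, k, by omega, m, hm.trans ?_⟩
  have h2 : (0 : ℝ) ≤ 1 / (k : ℝ) := by positivity
  exact mul_le_mul (le_abs_self _)
    (Real.rpow_le_rpow_of_exponent_le (one_le_P n) (by linarith))
    (Real.rpow_nonneg (Nat.cast_nonneg _) _) (abs_nonneg _)

open Classical in
lemma step (h : OneS) {ε : ℝ} (hε : 0 < ε) {K : ℕ} (hK : 2 ≤ K) (t : Tail ε (K + 1)) :
    Tail ε K := by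
  obtain ⟨η₁, p₁, h₁⟩ := h K ε hK hε
  obtain ⟨η₂, p₂, h₂⟩ := t
  refine ⟨min η₁ η₂, lt_min p₁ p₂, fun d => ?_⟩
  obtain ⟨C₁, c₁⟩ := h₁ d
  obtain ⟨C₂, c₂⟩ := h₂ d
  refine ⟨|C₁| + |C₂|, fun X hX => ?_⟩
  have e₁ := (c₁ X hX).trans (up (min_le_left η₁ η₂) hX)
  have e₂ := (c₂ X hX).trans (up (min_le_right η₁ η₂) hX)
  rw [add_mul]
  refine le_trans ?_ (add_le_add e₁ e₂)
  rw [← Nat.cast_add]
  refine Nat.cast_le.mpr (le_trans (card_le_card fun n hn => ?_) (card_union_le _ _))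
  obtain ⟨h1, k, hk, m, hm⟩ := mem_filter.mp hn
  rcases hk.eq_or_lt with rfl | hlt
  · exact mem_union_left _ (mem_filter.mpr ⟨h1, m, hm⟩)
  · exact mem_union_right _ (mem_filter.mpr ⟨h1, k, hlt, m, hm⟩)

lemma down (h : OneS) {ε : ℝ} (hε : 0 < ε) (j : ℕ) : Tail ε (2 + j) → Tail ε 2 := by
  induction j with
  | zero => exact id
  | succ j ih => exact fun t => ih (step h hε (by omega) t)

end MainL

theorem mainK (h : OneS) : MainS := fun ε hε => by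
  obtain ⟨K, hK⟩ := MainL.big hε
  exact MainL.down h hε K hK

end Pool.Agent.MP_ed4d7b_nt.K2

end
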